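import Mathlib

/-!
# The degree of `ℚ(ζ_d, 2^{1/d})` for squarefree `d`
-/

set_option autoImplicit false

namespace Pool.Agent.W47.TG

open Polynomial IntermediateField Module

attribute [-instance] DivisionRing.toRatAlgebra

lemma sq_eq_one_iff_of_side {Ω : Type*} [Field Ω] {x : Ω} (h : x ^ 2 = 1) : x = 1 ∨ x = -1 := by
  have h1 : (x - 1) * (x + 1) = 0 := by ring_nf; rw [h]; ring
  rcases mul_eq_zero.mp h1 with h2 | h2
  · exact Or.inl (sub_eq_zero.mp h2)
  · exact Or.inr (eq_neg_of_add_eq_zero_left h2)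

lemma cyc_minpoly {K : Type*} [Field K] [Algebra ℚ K] {n : ℕ} {μ : K} (h : IsPrimitiveRoot μ n)
    (hpos : 0 < n) : cyclotomic n ℚ = minpoly ℚ μ := by
  have : NeZero (n : ℚ) := ⟨by exact_mod_cast hpos.ne'⟩
  exact h.minpoly_eq_cyclotomic_of_irreducible (cyclotomic.irreducible_rat hpos)

lemma two_not_pow {l : ℕ} (hl : 2 ≤ l) (b : ℚ) : b ^ l ≠ 2 := by
  intro h
  have hb : b ≠ 0 := by
    rintro rfl
    rw [zero_pow (by omega)] at h
    norm_num at h
  have : Fact (Nat.Prime 2) := ⟨Nat.prime_two⟩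
  have h1 := congrArg (padicValRat 2) h
  rw [padicValRat.pow] at h1
  have h2 : padicValRat 2 (2 : ℚ) = 1 := by
    have := padicValRat.self (p := 2) (by norm_num)
    simpa using this
  rw [h2] at h1
  have h3 : (l : ℤ) ∣ 1 := ⟨_, h1.symm⟩
  have h4 := Int.le_of_dvd one_pos h3
  omega

lemma irr_rat {l : ℕ} (hl : l.Prime) : Irreducible (X ^ l - C (2 : ℚ)) :=
  X_pow_sub_C_irreducible_of_prime hl (fun b => two_not_pow hl.two_le b)

/-- in an abelian number field `2` is not an `l`-th power, `l` odd -/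
lemma not_pow_odd {K : Type*} [Field K] [Algebra ℚ K] [IsAbelianGalois ℚ K]
    [FiniteDimensional ℚ K] {l : ℕ} (hl : l.Prime) (hl2 : l ≠ 2) (b : K) : b ^ l ≠ 2 := by
  intro hb
  have hirr := irr_rat hl
  have hmin : minpoly ℚ b = X ^ l - C 2 := by
    refine (minpoly.eq_of_irreducible_of_monic hirr ?_ (monic_X_pow_sub_C _ hl.ne_zero)).symm
    rw [map_sub, map_pow, aeval_X, aeval_C, hb, map_ofNat, sub_self]
  have hint : IsIntegral ℚ b := Algebra.IsIntegral.isIntegral b
  have hF : finrank ℚ ℚ⟮b⟯ = l := by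
    rw [adjoin.finrank hint, hmin, natDegree_X_pow_sub_C]
  have : IsAbelianGalois ℚ ℚ⟮b⟯ := inferInstance
  have hmin' : minpoly ℚ (AdjoinSimple.gen ℚ b) = X ^ l - C 2 := by
    rw [minpoly_gen, hmin]
  have hsp : Splits ((X ^ l - C (2 : ℚ)).map (algebraMap ℚ ℚ⟮b⟯)) := by
    rw [← hmin']
    exact Normal.splits inferInstance _
  have hsep : (X ^ l - C (2 : ℚ)).Separable := hirr.separable
  have hcard := card_rootSet_eq_natDegree hsep hsp
  rw [natDegree_X_pow_sub_C] at hcard
  have h1 : 1 < Fintype.card ((X ^ l - C (2 : ℚ)).rootSet ℚ⟮b⟯) := by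
    rw [hcard]; exact hl.one_lt
  obtain ⟨⟨r, hr⟩, ⟨s, hs⟩, hrs⟩ := Fintype.one_lt_card_iff.mp h1
  have hrs' : r ≠ s := fun h => hrs (Subtype.ext h)
  rw [mem_rootSet] at hr hs
  have hr2 : r ^ l = 2 := by
    have := hr.2
    rwa [map_sub, map_pow, aeval_X, aeval_C, map_ofNat, sub_eq_zero] at this
  have hs2 : s ^ l = 2 := by
    have := hs.2
    rwa [map_sub, map_pow, aeval_X, aeval_C, map_ofNat, sub_eq_zero] at this
  have hs0 : s ≠ 0 := by
    rintro rfl
    rw [zero_pow hl.ne_zero] at hs2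
    exact two_ne_zero hs2.symm
  have hz1 : (r / s) ^ l = 1 := by rw [div_pow, hr2, hs2, div_self two_ne_zero]
  have hz2 : r / s ≠ 1 := by
    intro h
    rw [div_eq_one_iff_eq hs0] at h
    exact hrs' h
  have hz : IsPrimitiveRoot (r / s) l := by
    have : Fact l.Prime := ⟨hl⟩
    have := orderOf_eq_prime hz1 hz2
    rw [← this]
    exact IsPrimitiveRoot.orderOf _
  have hmz : minpoly ℚ (r / s) = cyclotomic l ℚ := (cyc_minpoly hz hl.pos).symm
  have hdeg := minpoly.degree_dvd (K := ℚ) (x := r / s) (Algebra.IsIntegral.isIntegral _)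
  rw [hmz, natDegree_cyclotomic, Nat.totient_prime hl, hF] at hdeg
  have h3 : 2 < l := lt_of_le_of_ne hl.two_le (Ne.symm hl2)
  have h4 : l - 1 ∣ 1 := by
    have := Nat.dvd_sub hdeg (dvd_refl (l - 1))
    rwa [Nat.sub_sub_self hl.one_lt.le] at this
  have := Nat.le_of_dvd one_pos h4
  omega

/-- `√2` is not in the cyclotomic field of conductor `2 m`, `m` odd -/
lemma not_sq {K : Type} [Field K] [Algebra ℚ K] {m : ℕ} (hm : Odd m)
    [NeZero (2 * m)] [IsCyclotomicExtension {2 * m} ℚ K] (b : K) : b ^ 2 ≠ 2 := by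
  intro hb
  have : CharZero K := algebraRat.charZero K
  have hm0 : 0 < m := hm.pos
  have : NeZero (4 * m) := ⟨by omega⟩
  let Ω := AlgebraicClosure K
  have : FiniteDimensional ℚ K := IsCyclotomicExtension.finiteDimensional {2 * m} ℚ K
  have : Algebra.IsAlgebraic ℚ Ω := Algebra.IsAlgebraic.trans ℚ K Ω
  have : Algebra.IsIntegral ℚ Ω := Algebra.isAlgebraic_iff_isIntegral.mp inferInstance
  obtain ⟨z, hz⟩ := HasEnoughRootsOfUnity.exists_primitiveRoot Ω (4 * m)
  obtain ⟨ξ, hξ⟩ : ∃ ξ : K, IsPrimitiveRoot ξ (2 * m) :=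
    IsCyclotomicExtension.exists_isPrimitiveRoot ℚ K (S := {2 * m}) (Set.mem_singleton _)
      (NeZero.ne _)
  have htop := IsCyclotomicExtension.adjoin_primitive_root_eq_top (A := ℚ) (B := K) hξ
  let E : IntermediateField ℚ Ω := ℚ⟮z⟯
  have hzE : z ∈ E := mem_adjoin_simple_self ℚ z
  have hz2 : IsPrimitiveRoot (z ^ 2) (2 * m) := hz.pow (by omega) (by ring)
  have hξE : algebraMap K Ω ξ ∈ E := by
    have h1 : (algebraMap K Ω ξ) ^ (2 * m) = 1 := by rw [← map_pow, hξ.pow_eq_one, map_one]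
    obtain ⟨i, -, hi⟩ := hz2.eq_pow_of_pow_eq_one h1
    rw [← hi]
    exact pow_mem (pow_mem hzE _) _
  have hKE : ∀ c : K, algebraMap K Ω c ∈ E := by
    intro c
    have hc : c ∈ Algebra.adjoin ℚ {ξ} := by rw [htop]; trivial
    induction hc using Algebra.adjoin_induction with
    | mem x hx => rw [Set.mem_singleton_iff] at hx; rw [hx]; exact hξE
    | algebraMap r =>
      rw [← IsScalarTower.algebraMap_apply]
      exact E.algebraMap_mem r
    | add x y _ _ hx hy => rw [map_add]; exact E.add_mem hx hy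
    | mul x y _ _ hx hy => rw [map_mul]; exact E.mul_mem hx hy
  set β : Ω := algebraMap K Ω b with hβ
  have hβ2 : β ^ 2 = 2 := by rw [hβ, ← map_pow, hb, map_ofNat]
  have hβ0 : β ≠ 0 := by
    intro h
    rw [h] at hβ2
    norm_num at hβ2
  have hi : IsPrimitiveRoot (z ^ m) 4 := hz.pow (by omega) (by ring)
  set i : Ω := z ^ m with hidef
  have hi2 : i ^ 2 = -1 := by
    have h1 : (i ^ 2) ^ 2 = 1 := by rw [← pow_mul]; exact hi.pow_eq_one
    have h2 : i ^ 2 ≠ 1 := fun h => by
      have := (hi.pow_eq_one_iff_dvd 2).mp h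
      omega
    rcases sq_eq_one_iff_of_side h1 with h | h
    · exact absurd h h2
    · exact h
  have hw : IsPrimitiveRoot ((1 + i) / β) 8 := by
    have h2 : ((1 + i) / β) ^ 2 = i := by
      rw [div_pow, hβ2, add_sq, hi2]
      ring
    have h4 : ((1 + i) / β) ^ 4 = -1 := by
      calc ((1 + i) / β) ^ 4 = (((1 + i) / β) ^ 2) ^ 2 := by rw [← pow_mul]
        _ = -1 := by rw [h2, hi2]
    have h8 : ((1 + i) / β) ^ 8 = 1 := by
      calc ((1 + i) / β) ^ 8 = (((1 + i) / β) ^ 4) ^ 2 := by rw [← pow_mul]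
        _ = 1 := by rw [h4]; norm_num
    have : Fact (Nat.Prime 2) := ⟨Nat.prime_two⟩
    have := orderOf_eq_prime_pow (p := 2) (n := 2) (x := (1 + i) / β) (by
      norm_num
      rw [h4]
      norm_num) (by norm_num; exact h8)
    have h9 : orderOf ((1 + i) / β) = 8 := by rw [this]; norm_num
    rw [← h9]
    exact IsPrimitiveRoot.orderOf _
  have hwE : (1 + i) / β ∈ E := E.div_mem (E.add_mem E.one_mem (pow_mem hzE m)) (hKE b)
  have hz' : IsPrimitiveRoot (⟨z, hzE⟩ : E) (4 * m) := by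
    rw [← IsPrimitiveRoot.coe_submonoidClass_iff]; exact hz
  have hw' : IsPrimitiveRoot (⟨(1 + i) / β, hwE⟩ : E) 8 := by
    rw [← IsPrimitiveRoot.coe_submonoidClass_iff]; exact hw
  have : FiniteDimensional ℚ E := adjoin.finiteDimensional (Algebra.IsIntegral.isIntegral z)
  have hlcm : Nat.lcm (4 * m) 8 = 8 * m := by
    have h1 : Nat.lcm (4 * m) (4 * 2) = 4 * Nat.lcm m 2 := Nat.lcm_mul_left 4 m 2
    have h2 : Nat.lcm m 2 = m * 2 := Nat.Coprime.lcm_eq_mul (by
      rwa [Nat.coprime_comm, Nat.coprime_two_left])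
    have h3 : Nat.lcm (4 * m) 8 = 4 * Nat.lcm m 2 := h1
    rw [h3, h2]; ring
  have key := hz'.lcm_totient_le_finrank (K := ℚ) hw' (by
    rw [hlcm]
    exact cyclotomic.irreducible_rat (by omega))
  rw [hlcm] at key
  have hE : finrank ℚ E = (4 * m).totient := by
    rw [adjoin.finrank (Algebra.IsIntegral.isIntegral z),
      ← cyc_minpoly hz (by omega), natDegree_cyclotomic]
  rw [hE] at key
  have c8 : (8 * m).totient = 4 * m.totient := by
    rw [Nat.totient_mul (by
      have : Nat.Coprime (2 ^ 3) m := (Nat.coprime_two_left.mpr hm).pow_left 3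
      simpa using this)]
    have : Nat.totient 8 = 4 := by decide
    rw [this]
  have c4 : (4 * m).totient = 2 * m.totient := by
    rw [Nat.totient_mul (by
      have : Nat.Coprime (2 ^ 2) m := (Nat.coprime_two_left.mpr hm).pow_left 2
      simpa using this)]
    have : Nat.totient 4 = 2 := by decide
    rw [this]
  have := Nat.totient_pos.mpr hm0
  omega

/-- **Kummer degree.** -/
theorem kummer_degree {L : Type} [Field L] [Algebra ℚ L] [FiniteDimensional ℚ L] {n d : ℕ}
    (hn : Squarefree n) (hdn : d ∣ n) {ζ θ : L} (hζ : IsPrimitiveRoot ζ n) (hθ : θ ^ d = 2)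
    (htop : ℚ⟮ζ, θ⟯ = ⊤) : finrank ℚ L = n.totient * d := by
  have hn0 : 0 < n := Nat.pos_of_ne_zero hn.ne_zero
  have hd : Squarefree d := hn.squarefree_of_dvd hdn
  have hd0 : 0 < d := Nat.pos_of_ne_zero hd.ne_zero
  have : NeZero n := ⟨hn0.ne'⟩
  have : CharZero L := algebraRat.charZero L
  let K : IntermediateField ℚ L := ℚ⟮ζ⟯
  have hcyc : IsCyclotomicExtension {n} ℚ K :=
    hζ.intermediateField_adjoin_isCyclotomicExtension ℚ
  have : IsAbelianGalois ℚ K := IsCyclotomicExtension.isAbelianGalois {n} ℚ K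
  have : FiniteDimensional ℚ K := inferInstance
  have : FiniteDimensional K L := inferInstance
  have hK : finrank ℚ K = n.totient := by
    rw [adjoin.finrank (Algebra.IsIntegral.isIntegral ζ),
      ← cyc_minpoly hζ hn0, natDegree_cyclotomic]
  -- upper bound
  have hL : K⟮θ⟯ = ⊤ := by
    have h1 : (K⟮θ⟯).restrictScalars ℚ = ℚ⟮ζ, θ⟯ := by
      rw [adjoin_simple_adjoin_simple]
    rw [htop] at h1
    exact restrictScalars_eq_top_iff.mp h1
  have hint : IsIntegral K θ := Algebra.IsIntegral.isIntegral θ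
  have hle : finrank K L ≤ d := by
    rw [← finrank_top', ← hL, adjoin.finrank hint]
    have hdvd : minpoly K θ ∣ X ^ d - C 2 := by
      apply minpoly.dvd
      rw [map_sub, map_pow, aeval_X, aeval_C, hθ, map_ofNat, sub_self]
    have := natDegree_le_of_dvd hdvd (monic_X_pow_sub_C _ hd0.ne').ne_zero
    rwa [natDegree_X_pow_sub_C] at this
  -- lower bound
  have hprime : ∀ l ∈ d.primeFactors, l ∣ finrank K L := by
    intro l hl
    have hlp := Nat.prime_of_mem_primeFactors hl
    have hld := Nat.dvd_of_mem_primeFactors hl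
    have hno : ∀ b : K, b ^ l ≠ 2 := by
      intro b
      by_cases hl2 : l = 2
      · subst hl2
        obtain ⟨m, rfl⟩ := hld.trans hdn
        have hm : Odd m := by
          rw [← Nat.not_even_iff_odd, even_iff_two_dvd]
          rintro ⟨k, rfl⟩
          have := hn 2 ⟨k, by ring⟩
          exact absurd this (by decide)
        exact not_sq hm b
      · exact not_pow_odd hlp hl2 b
    have hirr : Irreducible (X ^ l - C (2 : K)) := X_pow_sub_C_irreducible_of_prime hlp hno
    have hα : (θ ^ (d / l)) ^ l = 2 := by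
      rw [← pow_mul, Nat.div_mul_cancel hld, hθ]
    have hmin : minpoly K (θ ^ (d / l)) = X ^ l - C 2 := by
      refine (minpoly.eq_of_irreducible_of_monic hirr ?_
        (monic_X_pow_sub_C _ hlp.ne_zero)).symm
      rw [map_sub, map_pow, aeval_X, aeval_C, hα, map_ofNat, sub_self]
    have := minpoly.degree_dvd (K := K) (x := θ ^ (d / l)) (Algebra.IsIntegral.isIntegral _)
    rwa [hmin, natDegree_X_pow_sub_C] at this
  have hdvd : d ∣ finrank K L := by
    conv_lhs => rw [← Nat.prod_primeFactors_of_squarefree hd]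
    exact Finset.prod_primes_dvd _ (fun l hl => (Nat.prime_of_mem_primeFactors hl).prime) hprime
  have hfin : finrank K L = d := le_antisymm hle (Nat.le_of_dvd finrank_pos hdvd)
  rw [← finrank_mul_finrank ℚ K L, hK, hfin]

end Pool.Agent.W47.TG
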