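import Mathlib
import Pool.Agent.W401.Cheb.Main
import Pool.Agent.W47.TG.Kum

/-!
# Splitting primes of `ℚ(ζ_d, 2^{1/d})`
-/

set_option autoImplicit false

namespace Pool.Agent.W47.TG

open Polynomial IntermediateField Module NumberField Filter Topology
open Pool.Agent.W401.Cheb (HasFrob xp pr TorAt M)

section exist
attribute [-instance] DivisionRing.toRatAlgebra

lemma exists_aux {n d : ℕ} (hn : 0 < n) (hdn : d ∣ n) : ∃ (L : Type) (_ : Field L)
    (_ : Algebra ℚ L) (_ : FiniteDimensional ℚ L) (_ : IsGalois ℚ L) (ζ θ : L),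
    IsPrimitiveRoot ζ n ∧ θ ^ d = 2 ∧ ℚ⟮ζ, θ⟯ = ⊤ := by
  have hnn : NeZero n := ⟨hn.ne'⟩
  have hd : 0 < d := Nat.pos_of_dvd_of_pos hdn hn
  let f : ℚ[X] := cyclotomic n ℚ * (X ^ d - C 2)
  have hc0 : cyclotomic n ℚ ≠ 0 := cyclotomic_ne_zero n ℚ
  have hx0 : (X ^ d - C (2 : ℚ)) ≠ 0 := (monic_X_pow_sub_C _ hd.ne').ne_zero
  have hf0 : f ≠ 0 := mul_ne_zero hc0 hx0
  let L := f.SplittingField
  have : CharZero L := algebraRat.charZero L
  have hsp : Splits (f.map (algebraMap ℚ L)) := SplittingField.splits f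
  have hfm0 : f.map (algebraMap ℚ L) ≠ 0 := by
    rw [Ne, Polynomial.map_eq_zero]; exact hf0
  have hsp1 : Splits ((cyclotomic n ℚ).map (algebraMap ℚ L)) :=
    hsp.of_dvd hfm0 (by rw [Polynomial.map_mul]; exact dvd_mul_right _ _)
  have hsp2 : Splits ((X ^ d - C (2 : ℚ)).map (algebraMap ℚ L)) :=
    hsp.of_dvd hfm0 (by rw [Polynomial.map_mul]; exact dvd_mul_left _ _)
  have hnL : NeZero (n : L) := ⟨by exact_mod_cast hn.ne'⟩
  obtain ⟨ζ, hζ⟩ := hsp1.exists_eval_eq_zero (by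
    rw [degree_map, degree_cyclotomic]
    exact_mod_cast (Nat.totient_pos.mpr hn).ne')
  obtain ⟨θ, hθ⟩ := hsp2.exists_eval_eq_zero (by
    rw [degree_map, degree_X_pow_sub_C hd]
    exact_mod_cast hd.ne')
  have hζ' : IsPrimitiveRoot ζ n := by
    rw [map_cyclotomic] at hζ
    exact isRoot_cyclotomic_iff.mp hζ
  have hθ' : θ ^ d = 2 := by
    rw [Polynomial.map_sub, Polynomial.map_pow, map_X, map_C, map_ofNat, eval_sub, eval_pow,
      eval_X, eval_C, sub_eq_zero] at hθ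
    exact hθ
  have hθ0 : θ ≠ 0 := by
    rintro rfl
    rw [zero_pow hd.ne'] at hθ'
    exact two_ne_zero hθ'.symm
  refine ⟨L, inferInstance, inferInstance, inferInstance, ?_, ζ, θ, hζ', hθ', ?_⟩
  · exact isGalois_iff.mpr ⟨inferInstance, Normal.of_isSplittingField f⟩
  · rw [eq_top_iff]
    intro x _
    have hx : x ∈ Algebra.adjoin ℚ (f.rootSet L) := by
      rw [IsSplittingField.adjoin_rootSet L f]; trivial
    have hsub : f.rootSet L ⊆ (ℚ⟮ζ, θ⟯ : Set L) := by
      intro r hr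
      have hζm : ζ ∈ ℚ⟮ζ, θ⟯ := subset_adjoin ℚ _ (by simp)
      have hθm : θ ∈ ℚ⟮ζ, θ⟯ := subset_adjoin ℚ _ (by simp)
      rw [mem_rootSet] at hr
      have h2 : aeval r (cyclotomic n ℚ * (X ^ d - C 2)) = 0 := hr.2
      rw [map_mul, mul_eq_zero] at h2
      rcases h2 with h | h
      · have hr' : IsPrimitiveRoot r n := by
          apply isRoot_cyclotomic_iff.mp
          rw [IsRoot.def, ← map_cyclotomic n (algebraMap ℚ L), eval_map_algebraMap]
          exact h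
        obtain ⟨i, -, hi⟩ := hζ'.eq_pow_of_pow_eq_one hr'.pow_eq_one
        rw [← hi]
        exact pow_mem hζm i
      · rw [map_sub, map_pow, aeval_X, aeval_C, map_ofNat, sub_eq_zero] at h
        have h3 : (r / θ) ^ n = 1 := by
          obtain ⟨c, hc⟩ := hdn
          rw [hc, pow_mul, div_pow, h, hθ', div_self two_ne_zero, one_pow]
        obtain ⟨i, -, hi⟩ := hζ'.eq_pow_of_pow_eq_one h3
        have h4 : r = ζ ^ i * θ := by rw [hi]; exact (div_mul_cancel₀ r hθ0).symm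
        rw [h4]
        exact mul_mem (pow_mem hζm i) hθm
    have hle : Algebra.adjoin ℚ (f.rootSet L) ≤ (ℚ⟮ζ, θ⟯).toSubalgebra :=
      Algebra.adjoin_le hsub
    exact hle hx

end exist

lemma exists_field {n d : ℕ} (hn : 0 < n) (hdn : d ∣ n) : ∃ (L : Type) (_ : Field L)
    (_ : NumberField L) (_ : IsGalois ℚ L) (ζ θ : L),
    IsPrimitiveRoot ζ n ∧ θ ^ d = 2 ∧ ℚ⟮ζ, θ⟯ = ⊤ := by
  obtain ⟨L, iF, iA, iFD, iG, ζ, θ, h1, h2, h3⟩ := exists_aux hn hdn
  have iC : CharZero L := algebraRat.charZero L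
  have e : iA = DivisionRing.toRatAlgebra := Subsingleton.elim _ _
  subst e
  exact ⟨L, iF, { to_charZero := iC, to_finiteDimensional := iFD }, iG, ζ, θ, h1, h2, h3⟩

theorem xp_eq {L : Type} [Field L] [NumberField L] [IsGalois ℚ L] {n d : ℕ} (hn0 : 0 < n)
    (hdn : d ∣ n) {ζ θ : L}
    (hζ : IsPrimitiveRoot ζ n) (hθ : θ ^ d = 2) (htop : ℚ⟮ζ, θ⟯ = ⊤) (p : ℕ) [hp : Fact p.Prime]
    (hp2 : p ≠ 2) (hpn : ¬ p ∣ n) (hT : TorAt L p) :
    xp L 1 p = if n ∣ p - 1 ∧ (2 : ZMod p) ^ ((p - 1) / d) = 1 then finrank ℚ L else 0 := by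
  have hp1 : 0 < p - 1 := by have := hp.out.two_le; omega
  have hd0 : 0 < d := Nat.pos_of_dvd_of_pos hdn hn0
  have hnn : NeZero n := ⟨hn0.ne'⟩
  set k := AlgebraicClosure (ZMod p) with hk
  have hcp : CharP k p := charP_of_injective_algebraMap (algebraMap (ZMod p) k).injective p
  have hnk : NeZero (n : k) := ⟨fun h => hpn ((CharP.cast_eq_zero_iff k p n).mp h)⟩
  have h2k : (2 : k) ≠ 0 := by
    intro h
    have h1 : ((2 : ℕ) : k) = 0 := by exact_mod_cast h
    have h2 := (CharP.cast_eq_zero_iff k p 2).mp h1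
    exact hp2 ((Nat.prime_dvd_prime_iff_eq hp.out Nat.prime_two).mp h2)
  have hζi : IsIntegral ℤ ζ := hζ.isIntegral hn0
  have hθi : IsIntegral ℤ θ := by
    refine IsIntegral.of_pow hd0 ?_
    rw [hθ]
    have := isIntegral_algebraMap (R := ℤ) (A := L) (x := (2 : ℤ))
    rwa [map_ofNat] at this
  set z : 𝓞 L := ⟨ζ, hζi⟩ with hz
  set t : 𝓞 L := ⟨θ, hθi⟩ with ht
  have hzp : IsPrimitiveRoot z n := by
    refine IsPrimitiveRoot.of_map_of_injective (f := algebraMap (𝓞 L) L) ?_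
      RingOfIntegers.coe_injective
    exact hζ
  have htd : t ^ d = 2 := by
    apply RingOfIntegers.coe_injective
    rw [map_pow, map_ofNat]
    exact hθ
  have hφz : ∀ φ : 𝓞 L →+* k, IsPrimitiveRoot (φ z) n := by
    intro φ
    apply isRoot_cyclotomic_iff.mp
    have h1 : (cyclotomic n (𝓞 L)).IsRoot z := hzp.isRoot_cyclotomic hn0
    have h2 := h1.map (f := φ)
    rwa [map_cyclotomic] at h2
  have hφt : ∀ φ : 𝓞 L →+* k, (φ t) ^ d = 2 := by
    intro φ
    rw [← map_pow, htd, map_ofNat]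
  have hφt0 : ∀ φ : 𝓞 L →+* k, φ t ≠ 0 := by
    intro φ h
    have := hφt φ
    rw [h, zero_pow hd0.ne'] at this
    exact h2k this.symm
  have hφz0 : ∀ φ : 𝓞 L →+* k, φ z ≠ 0 := fun φ => (hφz φ).ne_zero hn0.ne'
  have hinj : Function.Injective (algebraMap (ZMod p) k) := (algebraMap (ZMod p) k).injective
  have hone : ∀ x : k, x ≠ 0 → x ^ p = x → x ^ (p - 1) = 1 := by
    intro x hx h
    have h1 : x * x ^ (p - 1) = x * 1 := by
      rw [← pow_succ', Nat.sub_add_cancel hp.out.one_le, h, mul_one]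
    exact mul_left_cancel₀ hx h1
  -- a homomorphism with trivial Frobenius forces the condition
  have hA : ∀ φ : 𝓞 L →+* k, HasFrob p φ 1 → n ∣ p - 1 ∧ (2 : ZMod p) ^ ((p - 1) / d) = 1 := by
    intro φ hφ
    have e1 : φ z ^ (p - 1) = 1 := hone _ (hφz0 φ) (by
      have := hφ z; rw [one_smul] at this; exact this.symm)
    have e2 : φ t ^ (p - 1) = 1 := hone _ (hφt0 φ) (by
      have := hφ t; rw [one_smul] at this; exact this.symm)
    have hnv : n ∣ p - 1 := (hφz φ).dvd_of_pow_eq_one _ e1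
    have hdv : d ∣ p - 1 := hdn.trans hnv
    refine ⟨hnv, hinj ?_⟩
    rw [map_pow, map_ofNat, map_one, ← hφt φ, ← pow_mul, Nat.mul_div_cancel' hdv, e2]
  -- the condition makes every Frobenius trivial
  have hB : n ∣ p - 1 → (2 : ZMod p) ^ ((p - 1) / d) = 1 → ∀ φ : 𝓞 L →+* k, HasFrob p φ 1 := by
    intro hnv h2 φ
    have hdv : d ∣ p - 1 := hdn.trans hnv
    obtain ⟨σ, hσ, -⟩ := hT.2.1 φ ((frobenius k p).comp φ)
    have hσ' : ∀ x, φ x ^ p = φ (σ • x) := fun x => by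
      rw [← hσ x, RingHom.comp_apply, frobenius_def]
    have e1 : φ z ^ (p - 1) = 1 := by
      obtain ⟨c, hc⟩ := hnv
      rw [hc, pow_mul, (hφz φ).pow_eq_one, one_pow]
    have e2 : φ t ^ (p - 1) = 1 := by
      conv_lhs => rw [← Nat.mul_div_cancel' hdv, pow_mul, hφt φ]
      have := congrArg (algebraMap (ZMod p) k) h2
      rwa [map_pow, map_ofNat, map_one] at this
    have e0 : ∀ x : k, x ^ (p - 1) = 1 → x ^ p = x := by
      intro x hx
      calc x ^ p = x ^ (p - 1 + 1) := by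
            congr 1
            exact (Nat.sub_add_cancel hp.out.one_le).symm
        _ = x := by rw [pow_succ, hx, one_mul]
    have e1' : φ z ^ p = φ z := e0 _ e1
    have e2' : φ t ^ p = φ t := e0 _ e2
    have hfix : ∀ (w : L) (W : 𝓞 L), algebraMap (𝓞 L) L W = w → w ≠ 0 → (σ w / w) ^ n = 1 →
        φ W ≠ 0 → φ W ^ p = φ W → σ w = w := by
      intro w W hw hw0 h1 hφ0 hφp
      obtain ⟨i, -, hi⟩ := hζ.eq_pow_of_pow_eq_one h1
      have h2 : σ w = ζ ^ i * w := by rw [hi]; exact (div_mul_cancel₀ _ hw0).symm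
      have h3 : σ • W = z ^ i * W := by
        apply RingOfIntegers.coe_injective
        rw [map_mul, map_pow, hw]
        refine Eq.trans ?_ h2
        rw [← hw]
        rfl
      have h4 : φ z ^ i * φ W = 1 * φ W := by
        rw [one_mul, ← map_pow, ← map_mul, ← h3, ← hσ', hφp]
      have h5 : φ z ^ i = 1 := mul_right_cancel₀ hφ0 h4
      have h6 : n ∣ i := (hφz φ).dvd_of_pow_eq_one _ h5
      obtain ⟨c, rfl⟩ := h6
      rw [h2, pow_mul, hζ.pow_eq_one, one_pow, one_mul]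
    have hζ0 : ζ ≠ 0 := hζ.ne_zero hn0.ne'
    have hθ0 : θ ≠ 0 := by
      rintro rfl
      rw [zero_pow hd0.ne'] at hθ
      exact two_ne_zero hθ.symm
    have hσζ : σ ζ = ζ := by
      refine hfix ζ z rfl hζ0 ?_ (hφz0 φ) e1'
      rw [div_pow, ← map_pow, hζ.pow_eq_one, map_one, div_one]
    have hσθ : σ θ = θ := by
      refine hfix θ t rfl hθ0 ?_ (hφt0 φ) e2'
      obtain ⟨c, hc⟩ := hdn
      rw [hc, pow_mul, div_pow, ← map_pow, hθ, map_ofNat, div_self two_ne_zero, one_pow]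
    have hσ1 : ∀ x : L, σ x = x := by
      intro x
      have hx : x ∈ ℚ⟮ζ, θ⟯ := by rw [htop]; trivial
      induction hx using adjoin_induction with
      | mem y hy =>
        rcases hy with rfl | hy
        · exact hσζ
        · rw [Set.mem_singleton_iff] at hy
          rw [hy]; exact hσθ
      | algebraMap r => exact σ.commutes r
      | add a b _ _ ha hb => rw [map_add, ha, hb]
      | inv a _ ha => rw [map_inv₀, ha]
      | mul a b _ _ ha hb => rw [map_mul, ha, hb]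
    have hσe : σ = 1 := AlgEquiv.ext hσ1
    intro x
    rw [← hσe]
    exact (hσ' x).symm
  unfold xp
  rw [dif_pos hp.out]
  split_ifs with h
  · have h1 : Nat.card {φ : 𝓞 L →+* k // HasFrob p φ 1} = Nat.card (𝓞 L →+* k) :=
      Nat.card_congr (Equiv.subtypeUnivEquiv (hB h.1 h.2))
    rw [h1, hT.1]
    exact IsGalois.card_aut_eq_finrank ℚ L
  · have : IsEmpty {φ : 𝓞 L →+* k // HasFrob p φ 1} := ⟨fun φ => h (hA φ.1 φ.2)⟩
    exact Nat.card_of_isEmpty

end Pool.Agent.W47.TG
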