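import Mathlib
import Pool.Agent.W47.TG.Hom

/-!
# The density of the primes `p ≡ 1 mod d` with `2` a `d`-th power
-/

set_option autoImplicit false

namespace Pool.Agent.W47.TG

open Module Filter Topology
open Pool.Agent.W401.Cheb (xp pr TorAt M chebotarev torsor M_smul M_congr)

open Classical in
/-- the primes `p ≡ 1 mod n` modulo which `2` is a `d`-th power have density `1 / (φ(n) d)`,
for `n` squarefree and `d ∣ n` -/
theorem dens_split {n d : ℕ} (hn : Squarefree n) (hdn : d ∣ n) :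
    Tendsto (M fun p => if n ∣ p - 1 ∧ (2 : ZMod p) ^ ((p - 1) / d) = 1 then (1 : ℝ) else 0)
      atTop (𝓝 (1 / ((n.totient : ℝ) * (d : ℝ)))) := by
  have hn0 : 0 < n := Nat.pos_of_ne_zero hn.ne_zero
  have hd0 : 0 < d := Nat.pos_of_dvd_of_pos hdn hn0
  obtain ⟨L, iF, iN, iG, ζ, θ, hζ, hθ, htop⟩ := exists_field hn0 hdn
  have hdeg : finrank ℚ L = n.totient * d := kummer_degree hn hdn hζ hθ htop
  obtain ⟨D, hD, hT⟩ := torsor L
  have hch := chebotarev L 1
  have h1 : Tendsto (M fun p => (1 / ((n.totient : ℝ) * (d : ℝ))) * (xp L 1 p : ℝ)) atTop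
      (𝓝 (1 / ((n.totient : ℝ) * (d : ℝ)) * 1)) := by
    have := hch.const_mul (1 / ((n.totient : ℝ) * (d : ℝ)))
    refine this.congr fun N => ?_
    exact (M_smul _ _ N).symm
  rw [mul_one] at h1
  refine M_congr (D := D * (2 * n)) (by positivity) ?_ h1
  intro p hp hpD
  have : Fact p.Prime := ⟨hp⟩
  have h2 : ¬ p ∣ D := fun h => hpD (h.mul_right _)
  have h3 : p ≠ 2 := by
    rintro rfl
    exact hpD (dvd_mul_of_dvd_right (dvd_mul_right _ _) _)
  have h4 : ¬ p ∣ n := fun h => hpD (dvd_mul_of_dvd_right (h.mul_left _) _)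
  have h5 := xp_eq hn0 hdn hζ hθ htop p h3 h4 (hT p h2)
  rw [h5, hdeg]
  have ht : 0 < n.totient := Nat.totient_pos.mpr hn0
  split_ifs with h
  · push_cast
    field_simp
  · simp

end Pool.Agent.W47.TG
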