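import Mathlib
import Pool.Agent.H771R4.SE.Datum

/-!
# Local counts: `a q` is no `l`-th power modulo `p` for the `l` of a given set of divisors of `p - 1`
-/

set_option autoImplicit false

namespace Pool.Agent.W47.TG

open Finset Filter Topology
open Pool.Agent.H386R2.Artin (PP Good hL power_residue incl_excl LC_pos)
open Pool.Agent.H771R4.SE (hL_nn)
open Pool.Agent.H730R2.AB (one_sub_sum_le)

section
variable {p : ℕ} [hp : Fact p.Prime]

/-- `x` is a `d`-th power iff `x ^ u` is, `u` coprime to `d` -/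
lemma pow_iff {d u : ℕ} (hd : d ∣ p - 1) (hu : Nat.Coprime u d) {x : ZMod p} (hx : x ≠ 0) :
    x ^ ((p - 1) / d) = 1 ↔ (x ^ u) ^ ((p - 1) / d) = 1 := by
  constructor
  · intro h
    rw [← pow_mul, mul_comm, pow_mul, h, one_pow]
  · intro h
    have h1 : (x ^ ((p - 1) / d)) ^ u = 1 := by rw [← pow_mul, mul_comm, pow_mul]; exact h
    have h2 : (x ^ ((p - 1) / d)) ^ d = 1 := by
      rw [← pow_mul, Nat.div_mul_cancel hd]
      exact ZMod.pow_card_sub_one_eq_one hx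
    have h3 := Nat.dvd_gcd (orderOf_dvd_of_pow_eq_one h1) (orderOf_dvd_of_pow_eq_one h2)
    rw [hu.gcd_eq_one] at h3
    have h4 := Nat.dvd_one.mp h3
    rwa [orderOf_eq_one_iff] at h4

open Classical in
/-- `c q ^ k` is a `d`-th power for the expected number of `q`, `d` coprime to `k` -/
lemma res_pow (E : Finset ℕ) (M : ℝ) (hE : ∀ q ∈ E, (q : ZMod p) ≠ 0) (hM : 0 ≤ M)
    (hG : Good E M p) (c : ℤ) (hc : ¬ (p : ℤ) ∣ c) (k d : ℕ) (hk : 0 < k) (hd : d ∣ p - 1)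
    (hkd : Nat.Coprime k d) :
    |(#(E.filter fun q : ℕ => ((c : ZMod p) * ((q : ℕ) : ZMod p) ^ k) ^ ((p - 1) / d) = 1) : ℝ) -
      (#E : ℝ) / d| ≤ M := by
  have hp1 : 0 < p - 1 := LC_pos
  have hc0 : (c : ZMod p) ≠ 0 := by rwa [Ne, ZMod.intCast_zmod_eq_zero_iff_dvd]
  obtain ⟨u, t, hut⟩ : ∃ u t : ℕ, k * u = 1 + d * t := by
    have hd0 : 0 < d := Nat.pos_of_dvd_of_pos hd hp1
    rcases Nat.lt_or_ge 1 d with h | h
    · obtain ⟨u, hu⟩ := Nat.exists_mul_mod_eq_one_of_coprime hkd h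
      refine ⟨u, k * u / d, ?_⟩
      have := Nat.mod_add_div (k * u) d
      rw [hu.2] at this
      exact this.symm
    · have hd1 : d = 1 := by omega
      subst hd1
      exact ⟨1, k - 1, by omega⟩
  have hu : Nat.Coprime u d := by
    have h1 : Nat.gcd u d ∣ 1 + d * t := by
      rw [← hut]; exact (Nat.gcd_dvd_left u d).mul_left k
    have h2 : Nat.gcd u d ∣ 1 := (Nat.dvd_add_left ((Nat.gcd_dvd_right u d).mul_right t)).mp h1
    exact Nat.dvd_one.mp h2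
  have h := power_residue E M (c ^ u) hM hG (by
    intro h
    apply hc
    exact Int.Prime.dvd_pow' hp.out h) d hd
  have e1 : (E.filter fun q : ℕ => (((c ^ u) * (q : ℤ) : ℤ) : ZMod p) ^ ((p - 1) / d) = 1) =
      (E.filter fun q : ℕ => ((c : ZMod p) * ((q : ℕ) : ZMod p) ^ k) ^ ((p - 1) / d) = 1) := by
    apply filter_congr
    intro q hq
    have hq0 := hE q hq
    have h1 : (c : ZMod p) * ((q : ℕ) : ZMod p) ^ k ≠ 0 := mul_ne_zero hc0 (pow_ne_zero _ hq0)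
    rw [pow_iff hd hu h1]
    have h2 : ((c : ZMod p) * ((q : ℕ) : ZMod p) ^ k) ^ u =
        ((c ^ u * (q : ℤ) : ℤ) : ZMod p) * (((q : ℕ) : ZMod p) ^ t) ^ d := by
      push_cast
      rw [mul_pow, ← pow_mul, hut, pow_add, pow_one, mul_comm d t, pow_mul, mul_assoc]
    have h3 : ((((q : ℕ) : ZMod p) ^ t) ^ d) ^ ((p - 1) / d) = 1 := by
      rw [← pow_mul, Nat.mul_div_cancel' hd]
      exact ZMod.pow_card_sub_one_eq_one (pow_ne_zero _ hq0)
    rw [h2, mul_pow, h3, mul_one]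
  have e2 : (E.filter fun q : ℕ => (q : ZMod p) ≠ 0) = E := by
    apply filter_true_of_mem
    exact hE
  rw [e1, e2] at h
  exact h

/-- the condition on the function `a` on the set `E` and the set `I` of primes: equidistribution in
the classes of `d`-th powers, `d` a product of elements of `I` -/
def Equi (E : Finset ℕ) (M : ℝ) (a : ℕ → ZMod p) (I : Finset ℕ) : Prop :=
  open Classical in ∀ K ⊆ I,
    |(#(E.filter fun q : ℕ => a q ^ ((p - 1) / ∏ l ∈ K, l) = 1) : ℝ) -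
      (#E : ℝ) / ((∏ l ∈ K, l : ℕ) : ℝ)| ≤ M

open Classical in
/-- inclusion-exclusion over a set `P` of prime divisors of `p - 1` -/
lemma count_P (E : Finset ℕ) (M : ℝ) (a : ℕ → ZMod p) (ha0 : ∀ q ∈ E, a q ≠ 0)
    (P : Finset ℕ) (hP : P ⊆ (p - 1).primeFactors) (ha : Equi E M a P) :
    |(#(E.filter fun q : ℕ => ∀ l ∈ P, a q ^ ((p - 1) / l) ≠ 1) : ℝ)
      - (#E : ℝ) * ∏ l ∈ P, (1 - 1 / (l : ℝ))| ≤ 2 ^ #P * M := by
  have h1 : (#(E.filter fun q : ℕ => ∀ l ∈ P, a q ^ ((p - 1) / l) ≠ 1) : ℝ)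
      = ∑ K ∈ P.powerset, (-1 : ℝ) ^ #K *
        (#(E.filter fun q : ℕ => a q ^ ((p - 1) / ∏ l ∈ K, l) = 1) : ℝ) := by
    rw [Finset.card_filter]
    push_cast
    have : ∀ q ∈ E, (if ∀ l ∈ P, a q ^ ((p - 1) / l) ≠ 1 then (1 : ℝ) else 0)
        = ∑ K ∈ P.powerset, (-1 : ℝ) ^ #K *
          (if a q ^ ((p - 1) / ∏ l ∈ K, l) = 1 then 1 else 0) := by
      intro q hq
      rw [← incl_excl _ P hP]
      simp only [ha0 q hq, ne_eq, not_false_eq_true, true_and]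
    rw [Finset.sum_congr rfl this, Finset.sum_comm]
    refine Finset.sum_congr rfl fun K _ => ?_
    rw [← Finset.mul_sum]
    congr 1
    rw [Finset.card_filter]
    push_cast
    rfl
  have h2 : ∏ l ∈ P, (1 - 1 / (l : ℝ)) = ∑ K ∈ P.powerset,
      (-1 : ℝ) ^ #K * (1 / ((∏ l ∈ K, l : ℕ) : ℝ)) := by
    have : ∀ l ∈ P, (1 - 1 / (l : ℝ)) = -(1 / (l : ℝ)) + 1 := by
      intro l _; ring
    rw [Finset.prod_congr rfl this, Finset.prod_add]
    refine Finset.sum_congr rfl fun K _ => ?_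
    rw [Finset.prod_const_one, mul_one, Finset.prod_neg]
    congr 1
    push_cast
    rw [Finset.prod_div_distrib, Finset.prod_const_one]
  rw [h1, h2, Finset.mul_sum, ← Finset.sum_sub_distrib]
  calc |∑ K ∈ P.powerset, ((-1 : ℝ) ^ #K *
        (#(E.filter fun q : ℕ => a q ^ ((p - 1) / ∏ l ∈ K, l) = 1) : ℝ)
        - (#E : ℝ) * ((-1 : ℝ) ^ #K * (1 / ((∏ l ∈ K, l : ℕ) : ℝ))))|
      ≤ ∑ K ∈ P.powerset, |(-1 : ℝ) ^ #K *
        (#(E.filter fun q : ℕ => a q ^ ((p - 1) / ∏ l ∈ K, l) = 1) : ℝ)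
        - (#E : ℝ) * ((-1 : ℝ) ^ #K * (1 / ((∏ l ∈ K, l : ℕ) : ℝ)))| :=
        Finset.abs_sum_le_sum_abs _ _
    _ ≤ ∑ K ∈ P.powerset, M := by
        refine Finset.sum_le_sum fun K hK => ?_
        have h2 := ha K (Finset.mem_powerset.mp hK)
        have h3 : (-1 : ℝ) ^ #K *
          (#(E.filter fun q : ℕ => a q ^ ((p - 1) / ∏ l ∈ K, l) = 1) : ℝ)
          - (#E : ℝ) * ((-1 : ℝ) ^ #K * (1 / ((∏ l ∈ K, l : ℕ) : ℝ)))
          = (-1 : ℝ) ^ #K * ((#(E.filter fun q : ℕ =>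
            a q ^ ((p - 1) / ∏ l ∈ K, l) = 1) : ℝ)
            - (#E : ℝ) / ((∏ l ∈ K, l : ℕ) : ℝ)) := by ring
        rw [h3, abs_mul, abs_pow, abs_neg, abs_one, one_pow, one_mul]
        exact h2
    _ = 2 ^ #P * M := by
        rw [Finset.sum_const, Finset.card_powerset, nsmul_eq_mul]
        push_cast
        ring

lemma prod_close (I : Finset ℕ) (hI : I ⊆ (p - 1).primeFactors) (L : ℕ) :
    0 ≤ ∏ l ∈ I.filter (fun l => l ≤ L), (1 - 1 / (l : ℝ)) - ∏ l ∈ I, (1 - 1 / (l : ℝ)) ∧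
    ∏ l ∈ I.filter (fun l => l ≤ L), (1 - 1 / (l : ℝ)) - ∏ l ∈ I, (1 - 1 / (l : ℝ)) ≤
      hL L (p - 1) := by
  have hI1 : ∀ l ∈ I, 1 ≤ l := fun l hl => (Nat.prime_of_mem_primeFactors (hI hl)).one_le
  obtain ⟨-, a2, a3⟩ := one_sub_sum_le (I.filter (fun l => l ≤ L))
    (fun l hl => hI1 l (mem_filter.mp hl).1)
  obtain ⟨b1, b2, b3⟩ := one_sub_sum_le (I.filter (fun l => ¬ l ≤ L))
    (fun l hl => hI1 l (mem_filter.mp hl).1)
  rw [← Finset.prod_filter_mul_prod_filter_not I (fun l => l ≤ L)]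
  have h1 : ∑ l ∈ I.filter (fun l => ¬ l ≤ L), 1 / (l : ℝ) ≤ hL L (p - 1) := by
    unfold hL
    refine Finset.sum_le_sum_of_subset_of_nonneg ?_ fun l _ _ => by positivity
    intro l hl
    rw [mem_filter] at hl ⊢
    exact ⟨hI hl.1, by omega⟩
  set A := ∏ l ∈ I.filter (fun l => l ≤ L), (1 - 1 / (l : ℝ))
  set B := ∏ l ∈ I.filter (fun l => ¬ l ≤ L), (1 - 1 / (l : ℝ))
  have e : A - A * B = A * (1 - B) := by ring
  rw [e]
  constructor
  · exact mul_nonneg a2 (by linarith)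
  · calc A * (1 - B) ≤ 1 * (1 - B) := mul_le_mul_of_nonneg_right a3 (by linarith)
      _ ≤ hL L (p - 1) := by linarith

open Classical in
/-- the local count for any set `I` of prime divisors of `p - 1` -/
theorem loc_sub (I : Finset ℕ) (hI : I ⊆ (p - 1).primeFactors) (E : Finset ℕ) (M : ℝ) (L : ℕ)
    (a : ℕ → ZMod p) (ha0 : ∀ q ∈ E, a q ≠ 0) (hM : 0 ≤ M) (ha : Equi E M a I) :
    |(#(E.filter fun q : ℕ => ∀ l ∈ I, a q ^ ((p - 1) / l) ≠ 1) : ℝ)
      - (#E : ℝ) * ∏ l ∈ I, (1 - 1 / (l : ℝ))| ≤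
      2 ^ L * M + 2 * (#E * hL L (p - 1)) + (p - 1).primeFactors.card * M := by
  have hp1 : 0 < p - 1 := LC_pos
  obtain ⟨P, hP⟩ : ∃ P, P = I.filter (fun l => l ≤ L) := ⟨_, rfl⟩
  obtain ⟨R, hR⟩ : ∃ R, R = I.filter (fun l => L < l) := ⟨_, rfl⟩
  have hPI' : P ⊆ I := by rw [hP]; exact filter_subset _ _
  have hRI' : R ⊆ I := by rw [hR]; exact filter_subset _ _
  have hPI : P ⊆ (p - 1).primeFactors := hPI'.trans hI
  have hRI : R ⊆ (p - 1).primeFactors := hRI'.trans hI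
  have hA := count_P E M a ha0 P hPI (fun K hK => ha K (hK.trans hPI'))
  have hPL : (2 : ℝ) ^ #P * M ≤ 2 ^ L * M := by
    refine mul_le_mul_of_nonneg_right ?_ hM
    refine pow_le_pow_right₀ (by norm_num) ?_
    have : P ⊆ Finset.Icc 1 L := by
      intro l hl
      have h1 := hPI hl
      rw [hP, Finset.mem_filter] at hl
      exact Finset.mem_Icc.mpr ⟨(Nat.prime_of_mem_primeFactors h1).one_le, hl.2⟩
    simpa using Finset.card_le_card this
  obtain ⟨c1, c2⟩ := prod_close (p := p) I hI L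
  rw [← hP] at c1 c2
  set B := E.filter (fun q : ℕ => ∀ l ∈ I, a q ^ ((p - 1) / l) ≠ 1) with hB
  set A := E.filter (fun q : ℕ => ∀ l ∈ P, a q ^ ((p - 1) / l) ≠ 1) with hAdef
  have hBA : B ⊆ A := by
    intro q hq
    rw [hB, Finset.mem_filter] at hq
    rw [hAdef, Finset.mem_filter]
    exact ⟨hq.1, fun l hl => hq.2 l (hPI' hl)⟩
  have hAB : A ⊆ B ∪ R.biUnion fun l =>
      E.filter fun q : ℕ => a q ^ ((p - 1) / l) = 1 := by
    intro q hq
    rw [hAdef, Finset.mem_filter] at hq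
    rw [Finset.mem_union, Finset.mem_biUnion]
    by_cases h : ∀ l ∈ R, a q ^ ((p - 1) / l) ≠ 1
    · left
      rw [hB, Finset.mem_filter]
      refine ⟨hq.1, fun l hl => ?_⟩
      rcases le_or_gt l L with hl' | hl'
      · exact hq.2 l (by rw [hP, Finset.mem_filter]; exact ⟨hl, hl'⟩)
      · exact h l (by rw [hR, Finset.mem_filter]; exact ⟨hl, hl'⟩)
    · right
      push Not at h
      obtain ⟨l, hl, hl1⟩ := h
      exact ⟨l, hl, Finset.mem_filter.mpr ⟨hq.1, hl1⟩⟩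
  have h1 : (#B : ℝ) ≤ #A := by exact_mod_cast Finset.card_le_card hBA
  have h2 : (#A : ℝ) ≤ #B + ∑ l ∈ R, ((#E : ℝ) / l + M) := by
    have h3 : #A ≤ #B + ∑ l ∈ R, #(E.filter fun q : ℕ => a q ^ ((p - 1) / l) = 1) :=
      (Finset.card_le_card hAB).trans ((Finset.card_union_le _ _).trans
        (Nat.add_le_add_left Finset.card_biUnion_le _))
    calc (#A : ℝ) ≤ #B + ∑ l ∈ R, (#(E.filter fun q : ℕ => a q ^ ((p - 1) / l) = 1) : ℝ) := by
          exact_mod_cast h3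
      _ ≤ _ := by
          refine add_le_add_right (Finset.sum_le_sum fun l hl => ?_) _
          have h4 := ha {l} (Finset.singleton_subset_iff.mpr (hRI' hl))
          rw [Finset.prod_singleton, abs_le] at h4
          have h5 := h4.2
          rw [sub_le_iff_le_add] at h5
          rw [add_comm]
          exact h5
  have hsum : ∑ l ∈ R, ((#E : ℝ) / l + M) ≤
      #E * hL L (p - 1) + (p - 1).primeFactors.card * M := by
    rw [Finset.sum_add_distrib, Finset.sum_const, nsmul_eq_mul]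
    refine add_le_add ?_ ?_
    · unfold hL
      rw [Finset.mul_sum]
      simp only [mul_one_div]
      refine Finset.sum_le_sum_of_subset_of_nonneg ?_ fun l _ _ => by positivity
      intro l hl
      rw [mem_filter]
      refine ⟨hRI hl, ?_⟩
      rw [hR, mem_filter] at hl
      exact hl.2
    · refine mul_le_mul_of_nonneg_right ?_ hM
      exact_mod_cast Finset.card_le_card hRI
  have hE0 : (0 : ℝ) ≤ #E := Nat.cast_nonneg _
  have d1 := mul_le_mul_of_nonneg_left c2 hE0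
  have d2 := mul_nonneg hE0 c1
  have hh : 0 ≤ (#E : ℝ) * hL L (p - 1) := mul_nonneg hE0 (hL_nn L p)
  have hw : 0 ≤ ((p - 1).primeFactors.card : ℝ) * M := by positivity
  rw [abs_le] at hA ⊢
  rw [mul_sub] at d1 d2
  constructor
  · linarith [hA.1]
  · linarith [hA.2]

lemma equi_pow (E : Finset ℕ) (M : ℝ) (hE : ∀ q ∈ E, (q : ZMod p) ≠ 0) (hM : 0 ≤ M)
    (hG : Good E M p) (c : ℤ) (hc : ¬ (p : ℤ) ∣ c) (k : ℕ) (hk : 0 < k) (I : Finset ℕ)
    (hI : I ⊆ (p - 1).primeFactors) (hIk : ∀ l ∈ I, ¬ l ∣ k) :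
    Equi E M (fun q : ℕ => (c : ZMod p) * ((q : ℕ) : ZMod p) ^ k) I := by
  classical
  intro K hK
  have hd : ∏ l ∈ K, l ∣ p - 1 :=
    (Finset.prod_dvd_prod_of_subset _ _ _ (hK.trans hI)).trans (Nat.prod_primeFactors_dvd _)
  have hkd : Nat.Coprime k (∏ l ∈ K, l) := by
    apply Nat.Coprime.prod_right
    intro l hl
    have hlp := Nat.prime_of_mem_primeFactors (hI (hK hl))
    exact ((Nat.Prime.coprime_iff_not_dvd hlp).mpr (hIk l (hK hl))).symm
  have h := res_pow E M hE hM hG c hc k _ hk hd hkd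
  refine le_trans (le_of_eq ?_) h
  congr!

end

end Pool.Agent.W47.TG
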