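import Mathlib
import Pool.Agent.W47.TG.Dens
import Pool.Agent.W47.TG.Loc

/-!
# Counting problems with base 2

Let `k ≥ 1`, let `R` be the set of the primes dividing `k` and let `two` be a set of primes.  Let `J p`
be the set of the primes `l ∣ p - 1` such that `2` is an `l`-th power modulo `p` if `l ∈ two`.  The
counting problem is: `c a ^ k` is no `l`-th power modulo `p` for all `l ∈ J p`.
-/

set_option autoImplicit false

namespace Pool.Agent.W47.TG

open Finset Filter Topology
open Pool.Agent.H386R2.Artin (PP Good hL LC_pos sumH totient_prod pow_prod_iff)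
open Pool.Agent.H771R4.SE (Dat hL_nn)
open Pool.Agent.H730R2.AB (one_sub_sum_le)
open Pool.Agent.W401.Cheb (M M_sum M_smul M_congr)

section
variable (R : Finset ℕ) (two : ℕ → Prop)

/-- the primes `l ∣ p - 1` such that `2` is an `l`-th power modulo `p` if `two l` -/
noncomputable def J (p : ℕ) : Finset ℕ :=
  open Classical in (p - 1).primeFactors.filter fun l => two l → (2 : ZMod p) ^ ((p - 1) / l) = 1

lemma J_sub (p : ℕ) : J two p ⊆ (p - 1).primeFactors := by
  classical
  unfold J; exact filter_subset _ _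

omit R in
lemma mem_J {p l : ℕ} : l ∈ J two p ↔
    l ∈ (p - 1).primeFactors ∧ (two l → (2 : ZMod p) ^ ((p - 1) / l) = 1) := by
  classical
  unfold J
  rw [mem_filter]

/-- `1` if `l ∈ R`, otherwise `1 / l` -/
noncomputable def w (l : ℕ) : ℝ := if l ∈ R then 1 else 1 / (l : ℝ)

/-- the density of the primes `p` with `l ∈ J p` is `1 / v l` -/
noncomputable def v (l : ℕ) : ℝ := open Classical in ((l : ℝ) - 1) * (if two l then (l : ℝ) else 1)

/-- local density -/
noncomputable def G (p : ℕ) : ℝ := ∏ l ∈ J two p, (1 - w R l)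

/-- truncated local density -/
noncomputable def GT (L p : ℕ) : ℝ := ∏ l ∈ (J two p).filter (fun l => l ≤ L), (1 - w R l)

/-- partial product -/
noncomputable def cL (L : ℕ) : ℝ := ∏ l ∈ PP L, (1 - w R l / v two l)

/-- the average density -/
noncomputable def cc : ℝ := ∏' l : Nat.Primes, (1 - w R (l : ℕ) / v two (l : ℕ))

lemma w_bd {l : ℕ} (hl : 1 ≤ l) : 0 ≤ w R l ∧ w R l ≤ 1 := by
  unfold w
  have : (1 : ℝ) ≤ l := by exact_mod_cast hl
  split_ifs
  · exact ⟨zero_le_one, le_rfl⟩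
  · refine ⟨by positivity, ?_⟩
    rw [div_le_one (by linarith)]
    exact this

lemma prod_w_bd (S : Finset ℕ) (hS : ∀ l ∈ S, 1 ≤ l) :
    0 ≤ ∏ l ∈ S, (1 - w R l) ∧ ∏ l ∈ S, (1 - w R l) ≤ 1 := by
  constructor
  · refine Finset.prod_nonneg fun l hl => ?_
    have := (w_bd R (hS l hl)).2
    linarith
  · refine Finset.prod_le_one (fun l hl => ?_) (fun l hl => ?_)
    · have := (w_bd R (hS l hl)).2
      linarith
    · have := (w_bd R (hS l hl)).1
      linarith

lemma G_bd (p : ℕ) : 0 ≤ G R two p ∧ G R two p ≤ 1 :=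
  prod_w_bd R _ fun l hl => (Nat.prime_of_mem_primeFactors (J_sub two p hl)).one_le

lemma GL_close {L : ℕ} (hL : ∀ l ∈ R, l ≤ L) (p : ℕ) :
    0 ≤ GT R two L p - G R two p ∧
    GT R two L p - G R two p ≤ Pool.Agent.H386R2.Artin.hL L (p - 1) := by
  have hI1 : ∀ l ∈ J two p, 1 ≤ l :=
    fun l hl => (Nat.prime_of_mem_primeFactors (J_sub two p hl)).one_le
  obtain ⟨a2, a3⟩ := prod_w_bd R ((J two p).filter (fun l => l ≤ L))
    (fun l hl => hI1 l (mem_filter.mp hl).1)
  obtain ⟨b1, b2, b3⟩ := one_sub_sum_le ((J two p).filter (fun l => ¬ l ≤ L))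
    (fun l hl => hI1 l (mem_filter.mp hl).1)
  unfold GT G
  rw [← Finset.prod_filter_mul_prod_filter_not (J two p) (fun l => l ≤ L)]
  have e1 : ∏ l ∈ (J two p).filter (fun l => ¬ l ≤ L), (1 - w R l) =
      ∏ l ∈ (J two p).filter (fun l => ¬ l ≤ L), (1 - 1 / (l : ℝ)) := by
    refine Finset.prod_congr rfl fun l hl => ?_
    rw [mem_filter] at hl
    unfold w
    rw [if_neg]
    intro hlk
    have := hL l hlk
    omega
  rw [e1]
  have h1 : ∑ l ∈ (J two p).filter (fun l => ¬ l ≤ L), 1 / (l : ℝ) ≤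
      Pool.Agent.H386R2.Artin.hL L (p - 1) := by
    unfold Pool.Agent.H386R2.Artin.hL
    refine Finset.sum_le_sum_of_subset_of_nonneg ?_ fun l _ _ => by positivity
    intro l hl
    rw [mem_filter] at hl ⊢
    exact ⟨J_sub two p hl.1, by omega⟩
  set A := ∏ l ∈ (J two p).filter (fun l => l ≤ L), (1 - w R l)
  set B := ∏ l ∈ (J two p).filter (fun l => ¬ l ≤ L), (1 - 1 / (l : ℝ))
  have e : A - A * B = A * (1 - B) := by ring
  rw [e]
  constructor
  · exact mul_nonneg a2 (by linarith)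
  · calc A * (1 - B) ≤ 1 * (1 - B) := mul_le_mul_of_nonneg_right a3 (by linarith)
      _ ≤ _ := by linarith

open Classical in
lemma GL_expand (L p : ℕ) (hp : p.Prime) (hp2 : p ≠ 2) :
    GT R two L p = ∑ K ∈ (PP L).powerset, (∏ l ∈ K, (-(w R l))) *
      (if (∏ l ∈ K, l) ∣ p - 1 ∧
        (2 : ZMod p) ^ ((p - 1) / ∏ l ∈ K.filter two, l) = 1 then 1 else 0) := by
  have : Fact p.Prime := ⟨hp⟩
  have hp1 : 0 < p - 1 := LC_pos
  have h20 : (2 : ZMod p) ≠ 0 := by
    intro h
    have h1 : ((2 : ℕ) : ZMod p) = 0 := by exact_mod_cast h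
    rw [ZMod.natCast_eq_zero_iff] at h1
    exact hp2 ((Nat.prime_dvd_prime_iff_eq hp Nat.prime_two).mp h1)
  have h1 : GT R two L p = ∏ l ∈ PP L, ((if l ∈ J two p then (-(w R l)) else 0) + 1) := by
    unfold GT
    have e : (J two p).filter (fun l => l ≤ L) = (PP L).filter (fun l => l ∈ J two p) := by
      ext l
      simp only [PP, mem_filter, mem_range]
      constructor
      · rintro ⟨h1, h2⟩
        exact ⟨⟨by omega, Nat.prime_of_mem_primeFactors (J_sub two p h1)⟩, h1⟩
      · rintro ⟨⟨h1, h2⟩, h3⟩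
        exact ⟨h3, by omega⟩
    rw [e, Finset.prod_filter]
    refine Finset.prod_congr rfl fun l _ => ?_
    split_ifs <;> ring
  rw [h1, Finset.prod_add]
  refine Finset.sum_congr rfl fun K hK => ?_
  rw [Finset.mem_powerset] at hK
  rw [Finset.prod_const_one, mul_one]
  have hprime : ∀ l ∈ K, l.Prime := fun l hl => (Finset.mem_filter.mp (hK hl)).2
  have key : (∏ l ∈ K, l) ∣ p - 1 ∧ (2 : ZMod p) ^ ((p - 1) / ∏ l ∈ K.filter two, l) = 1 ↔
      ∀ l ∈ K, l ∈ J two p := by
    constructor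
    · rintro ⟨h2, h3⟩
      have hsub : K ⊆ (p - 1).primeFactors := fun l hl =>
        Nat.mem_primeFactors.mpr ⟨hprime l hl, (Finset.dvd_prod_of_mem _ hl).trans h2, hp1.ne'⟩
      have h4 := (pow_prod_iff h20 (K.filter two) ((filter_subset _ _).trans hsub)).mpr h3
      intro l hl
      unfold J
      rw [mem_filter]
      exact ⟨hsub hl, fun ht => h4 l (mem_filter.mpr ⟨hl, ht⟩)⟩
    · intro h
      have hsub : K ⊆ (p - 1).primeFactors := fun l hl => J_sub two p (h l hl)
      refine ⟨(Finset.prod_dvd_prod_of_subset _ _ _ hsub).trans (Nat.prod_primeFactors_dvd _), ?_⟩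
      refine (pow_prod_iff h20 (K.filter two) ((filter_subset _ _).trans hsub)).mp fun l hl => ?_
      rw [mem_filter] at hl
      have := h l hl.1
      unfold J at this
      rw [mem_filter] at this
      exact this.2 hl.2
  by_cases hall : ∀ l ∈ K, l ∈ J two p
  · rw [if_pos (key.mpr hall), mul_one]
    refine Finset.prod_congr rfl fun l hl => ?_
    rw [if_pos (hall l hl)]
  · rw [if_neg (fun h => hall (key.mp h)), mul_zero]
    push Not at hall
    obtain ⟨l, hl, hln⟩ := hall
    exact Finset.prod_eq_zero hl (if_neg hln)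

omit R two in
lemma squarefree_prod (K : Finset ℕ) (hK : ∀ l ∈ K, l.Prime) : Squarefree (∏ l ∈ K, l) := by
  refine Finset.squarefree_prod_of_pairwise_isCoprime ?_ fun l hl => (hK l hl).squarefree
  intro a ha b hb hab
  exact Nat.coprime_iff_isRelPrime.mp ((Nat.coprime_primes (hK a ha) (hK b hb)).mpr hab)

theorem sumGL (L : ℕ) : Tendsto (M (GT R two L)) atTop (𝓝 (cL R two L)) := by
  classical
  have h2 : cL R two L = ∑ K ∈ (PP L).powerset, (∏ l ∈ K, (-(w R l))) *
      (1 / (((∏ l ∈ K, l : ℕ).totient : ℝ) * ((∏ l ∈ K.filter two, l : ℕ) : ℝ))) := by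
    unfold cL
    have : ∏ l ∈ PP L, (1 - w R l / v two l) =
        ∏ l ∈ PP L, (-(w R l / v two l) + 1) := by
      apply Finset.prod_congr rfl
      intro l _; ring
    rw [this, Finset.prod_add]
    apply Finset.sum_congr rfl
    intro K hK
    rw [Finset.mem_powerset] at hK
    have hprime : ∀ l ∈ K, l.Prime := fun l hl => (Finset.mem_filter.mp (hK hl)).2
    rw [Finset.prod_const_one, mul_one, totient_prod K hprime]
    push_cast
    rw [Finset.prod_filter, ← Finset.prod_mul_distrib, one_div, ← Finset.prod_inv_distrib,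
      ← Finset.prod_mul_distrib]
    apply Finset.prod_congr rfl
    intro l hl
    unfold v
    rw [div_eq_mul_inv]
    ring
  have h3 : Tendsto (M fun p => ∑ K ∈ (PP L).powerset, (∏ l ∈ K, (-(w R l))) *
      (if (∏ l ∈ K, l) ∣ p - 1 ∧ (2 : ZMod p) ^ ((p - 1) / ∏ l ∈ K.filter two, l) = 1
        then (1 : ℝ) else 0))
      atTop (𝓝 (cL R two L)) := by
    rw [h2]
    have h4 : (fun N => ∑ K ∈ (PP L).powerset, (∏ l ∈ K, (-(w R l))) *
        M (fun p => if (∏ l ∈ K, l) ∣ p - 1 ∧
          (2 : ZMod p) ^ ((p - 1) / ∏ l ∈ K.filter two, l) = 1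
          then (1 : ℝ) else 0) N) =
        M fun p => ∑ K ∈ (PP L).powerset, (∏ l ∈ K, (-(w R l))) *
      (if (∏ l ∈ K, l) ∣ p - 1 ∧ (2 : ZMod p) ^ ((p - 1) / ∏ l ∈ K.filter two, l) = 1
        then (1 : ℝ) else 0) := by
      funext N
      rw [M_sum]
      refine Finset.sum_congr rfl fun K _ => ?_
      rw [← M_smul]
    rw [← h4]
    apply tendsto_finsetSum
    intro K hK
    rw [Finset.mem_powerset] at hK
    have hprime : ∀ l ∈ K, l.Prime := fun l hl => (Finset.mem_filter.mp (hK hl)).2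
    exact (dens_split (squarefree_prod K hprime)
      (Finset.prod_dvd_prod_of_subset _ _ _ (filter_subset _ _))).const_mul _
  refine M_congr (D := 2) (by norm_num) ?_ h3
  intro p hp hp2
  exact GL_expand R two L p hp (by rintro rfl; exact hp2 dvd_rfl)

theorem summable_cc : Summable fun p : Nat.Primes => -(w R (p : ℕ) / v two (p : ℕ)) := by
  set k : ℕ := R.sup id with hkdef
  have h2 : Summable fun p : Nat.Primes => (2 * ((k : ℝ) + 1)) * (1 / ((p : ℕ) : ℝ) ^ 2) :=
    ((Real.summable_one_div_nat_pow.mpr (by norm_num)).comp_injective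
      (i := fun p : Nat.Primes => (p : ℕ)) Subtype.val_injective).mul_left _
  refine Summable.of_norm_bounded h2 ?_
  intro p
  have hp2 : 2 ≤ (p : ℕ) := p.2.two_le
  have hp : (2 : ℝ) ≤ ((p : ℕ) : ℝ) := by exact_mod_cast hp2
  have hp0 : (0 : ℝ) < ((p : ℕ) : ℝ) := by linarith
  have hk0 : (0 : ℝ) ≤ (k : ℝ) := Nat.cast_nonneg k
  obtain ⟨w0, -⟩ := w_bd R (l := (p : ℕ)) (by omega)
  have w1 : w R (p : ℕ) ≤ ((k : ℝ) + 1) / ((p : ℕ) : ℝ) := by
    rw [le_div_iff₀ hp0]
    unfold w
    split_ifs with h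
    · have h1 : (((p : ℕ) : ℝ)) ≤ (k : ℝ) := by
        exact_mod_cast (Finset.le_sup (f := id) h : id (p : ℕ) ≤ R.sup id)
      linarith
    · rw [one_div, inv_mul_cancel₀ hp0.ne']
      linarith
  have v1 : ((p : ℕ) : ℝ) / 2 ≤ v two (p : ℕ) := by
    unfold v
    split_ifs
    · nlinarith
    · linarith
  have v0 : 0 < v two (p : ℕ) := lt_of_lt_of_le (by positivity) v1
  rw [norm_neg, Real.norm_of_nonneg (div_nonneg w0 v0.le), div_le_iff₀ v0]
  calc w R (p : ℕ) ≤ ((k : ℝ) + 1) / ((p : ℕ) : ℝ) := w1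
    _ = 2 * ((k : ℝ) + 1) * (1 / ((p : ℕ) : ℝ) ^ 2) * (((p : ℕ) : ℝ) / 2) := by
        field_simp
    _ ≤ _ := by gcongr

theorem cclim : Tendsto (cL R two) atTop (𝓝 (cc R two)) := by
  have hm : Multipliable fun p : Nat.Primes =>
      (1 - w R (p : ℕ) / v two (p : ℕ)) := by
    have h := Real.multipliable_one_add_of_summable (summable_cc R two)
    simpa only [← sub_eq_add_neg] using h
  have h := hm.hasProd
  have hs : Tendsto (fun L : ℕ => ((PP L).subtype Nat.Prime : Finset Nat.Primes)) atTop atTop := by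
    apply tendsto_atTop_finset_of_monotone
    · intro a b hab p hp
      rw [Finset.mem_subtype] at hp ⊢
      unfold PP at hp ⊢
      rw [Finset.mem_filter, Finset.mem_range] at hp ⊢
      exact ⟨by omega, hp.2⟩
    · intro p
      refine ⟨(p : ℕ), ?_⟩
      rw [Finset.mem_subtype]
      unfold PP
      rw [Finset.mem_filter, Finset.mem_range]
      exact ⟨by omega, p.2⟩
  have h2 := h.comp hs
  unfold cc
  refine h2.congr ?_
  intro L
  simp only [Function.comp]
  have h3 := Finset.prod_subtype_eq_prod_filter (s := PP L) (p := Nat.Prime)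
    (f := fun l : ℕ => (1 - w R l / v two l))
  refine h3.trans ?_
  unfold cL PP
  rw [Finset.filter_filter]
  simp

theorem G_lim : Tendsto (fun x : ℕ => (∑ p ∈ PP x, G R two p) /
    (Nat.primeCounting x : ℝ)) atTop (𝓝 (cc R two)) := by
  classical
  obtain ⟨C, hC, h5⟩ := sumH
  rw [Metric.tendsto_atTop]
  intro ε hε
  have hLlim : ∀ᶠ L : ℕ in atTop, |cL R two L - cc R two| < ε / 4 := by
    have := (Metric.tendsto_nhds.1 (cclim R two)) (ε / 4) (by positivity)
    simpa [Real.dist_eq] using this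
  have hCL : ∀ᶠ L : ℕ in atTop, C / (L : ℝ) < ε / 4 := by
    have : Tendsto (fun L : ℕ => C / (L : ℝ)) atTop (𝓝 0) :=
      tendsto_const_nhds.div_atTop tendsto_natCast_atTop_atTop
    exact this.eventually (gt_mem_nhds (by positivity))
  obtain ⟨L, ⟨hL1, hL2⟩, hL3⟩ := ((hLlim.and hCL).and (eventually_ge_atTop (R.sup id + 1))).exists
  have hLR : ∀ l ∈ R, l ≤ L := fun l hl =>
    (Finset.le_sup (f := id) hl : id l ≤ R.sup id).trans (by omega)
  obtain ⟨x₅, hx₅⟩ := h5 L (by omega)
  have hG : ∀ᶠ x : ℕ in atTop, |(∑ p ∈ PP x, GT R two L p) / (Nat.primeCounting x : ℝ) -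
      cL R two L| < ε / 4 := by
    have h0 : Tendsto (fun x : ℕ => (∑ p ∈ PP x, GT R two L p) / (Nat.primeCounting x : ℝ)) atTop
      (𝓝 (cL R two L)) := sumGL R two L
    have := (Metric.tendsto_nhds.1 h0) (ε / 4) (by positivity)
    simpa [Real.dist_eq] using this
  have hπ : ∀ᶠ x : ℕ in atTop, (1 : ℝ) ≤ (Nat.primeCounting x : ℝ) :=
    (Filter.tendsto_atTop.mp (tendsto_natCast_atTop_atTop.comp
      Nat.tendsto_primeCounting) _)
  obtain ⟨x₀, hx₀⟩ := eventually_atTop.1 ((hG.and hπ).and (eventually_ge_atTop x₅))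
  refine ⟨x₀, fun x hx => ?_⟩
  obtain ⟨⟨g1, g2⟩, g3⟩ := hx₀ x hx
  set P : ℝ := (Nat.primeCounting x : ℝ) with hP
  have hP0 : 0 < P := lt_of_lt_of_le one_pos g2
  have hh := hx₅ x g3
  have h13 : |∑ p ∈ PP x, GT R two L p - ∑ p ∈ PP x, G R two p| ≤ C / L * P := by
    rw [← Finset.sum_sub_distrib]
    refine (Finset.abs_sum_le_sum_abs _ _).trans ?_
    calc ∑ p ∈ PP x, |GT R two L p - G R two p| ≤ ∑ p ∈ PP x, hL L (p - 1) := by
          apply Finset.sum_le_sum
          intro p hp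
          obtain ⟨c1, c2⟩ := GL_close R two hLR p
          rw [abs_of_nonneg c1]
          exact c2
      _ ≤ C / L * P := hh
  have h14 : |∑ p ∈ PP x, GT R two L p - cL R two L * P| ≤ ε / 4 * P := by
    have e1 : ∑ p ∈ PP x, GT R two L p - cL R two L * P =
        ((∑ p ∈ PP x, GT R two L p) / P - cL R two L) * P := by
      field_simp
    rw [e1, abs_mul, abs_of_pos hP0]
    exact mul_le_mul_of_nonneg_right g1.le hP0.le
  have h15 : |cL R two L * P - cc R two * P| ≤ ε / 4 * P := by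
    rw [← sub_mul, abs_mul, abs_of_pos hP0]
    exact mul_le_mul_of_nonneg_right hL1.le hP0.le
  have h16 : |∑ p ∈ PP x, G R two p - cc R two * P| < ε * P := by
    have t1 : C / L * P ≤ ε / 4 * P := mul_le_mul_of_nonneg_right hL2.le hP0.le
    rw [abs_le] at h13 h14 h15
    rw [abs_lt]
    have : 0 < ε * P := by positivity
    constructor
    · linarith [h13.1, h13.2, h14.1, h14.2, h15.1, h15.2]
    · linarith [h13.1, h13.2, h14.1, h14.2, h15.1, h15.2]
  rw [Real.dist_eq]
  have h17 : (∑ p ∈ PP x, G R two p) / P - cc R two =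
      (∑ p ∈ PP x, G R two p - cc R two * P) / P := by
    field_simp
  rw [h17, abs_div, abs_of_pos hP0, div_lt_iff₀ hP0]
  exact h16

omit R in
/-- the condition modulo `p`: `c a ^ k` is no `l`-th power for all `l ∈ J p` -/
def QQ (k : ℕ) (c : ℤ) (p : ℕ) (a : ZMod p) : Prop :=
  a ≠ 0 ∧ ∀ l ∈ J two p, ((c : ZMod p) * a ^ k) ^ ((p - 1) / l) ≠ 1

/-- `R` is the set of the primes dividing `k ≥ 1` -/
def Rad (R : Finset ℕ) (k : ℕ) : Prop := 0 < k ∧ ∀ l : ℕ, l.Prime → (l ∣ k ↔ l ∈ R)

/-- the counting problem -/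
noncomputable def dat (k : ℕ) (hk : Rad R k) (B : ℕ) (c : ℤ) (hc : c ≠ 0) (hcB : c.natAbs ≤ B)
    (hcJ : ∀ p : ℕ, p.Prime → ∀ l ∈ J two p, l ∣ k → (c : ZMod p) ^ ((p - 1) / l) = 1) :
    Dat where
  Q := QQ two k c
  G := G R two
  A := cc R two
  p0 := B + 3
  G0 := fun p => (G_bd R two p).1
  G1 := fun p => (G_bd R two p).2.trans (by norm_num)
  loc := by
    classical
    intro p hp hp0 E M L _ hE hM hG
    have : Fact p.Prime := ⟨hp⟩
    have hpc : ¬ (p : ℤ) ∣ c := by
      intro h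
      have h1 := Int.natCast_dvd.1 h
      have h2 := Nat.le_of_dvd (Int.natAbs_pos.2 hc) h1
      omega
    have hc0 : (c : ZMod p) ≠ 0 := by rwa [Ne, ZMod.intCast_zmod_eq_zero_iff_dvd]
    have hE0 : (0 : ℝ) ≤ #E := Nat.cast_nonneg _
    have c5 : 0 ≤ (#E : ℝ) * hL L (p - 1) := mul_nonneg hE0 (hL_nn L p)
    suffices key : |((#(E.filter (fun q : ℕ => QQ two k c p ((q : ℕ) : ZMod p))) : ℕ) : ℝ) -
        #E * G R two p| ≤
        1 + 2 ^ L * M + 3 * (#E * hL L (p - 1)) + (p - 1).primeFactors.card * M by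
      refine le_trans (le_of_eq ?_) key
      congr!
    by_cases hJ : ∃ l ∈ J two p, l ∣ k
    · obtain ⟨l, hl, hlk⟩ := hJ
      have hlp := Nat.prime_of_mem_primeFactors (J_sub two p hl)
      have hG0 : G R two p = 0 := by
        unfold G
        refine Finset.prod_eq_zero hl ?_
        unfold w
        rw [if_pos ((hk.2 l hlp).mp hlk), sub_self]
      have he : E.filter (fun q : ℕ => QQ two k c p ((q : ℕ) : ZMod p)) = ∅ := by
        rw [filter_eq_empty_iff]
        intro q hq hcon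
        apply hcon.2 l hl
        obtain ⟨t, rfl⟩ := hlk
        have hld := Nat.dvd_of_mem_primeFactors (J_sub two p hl)
        rw [mul_pow, hcJ p hp l hl (dvd_mul_right _ _), one_mul, ← pow_mul,
          show l * t * ((p - 1) / l) = (l * ((p - 1) / l)) * t by ring, Nat.mul_div_cancel' hld,
          pow_mul, ZMod.pow_card_sub_one_eq_one (hE q hq), one_pow]
      rw [hG0, he]
      simp only [card_empty, Nat.cast_zero, mul_zero, sub_zero, abs_zero]
      positivity
    · push Not at hJ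
      have h := loc_sub (J two p) (J_sub two p) E M L
        (fun q : ℕ => (c : ZMod p) * ((q : ℕ) : ZMod p) ^ k)
        (fun q hq => mul_ne_zero hc0 (pow_ne_zero _ (hE q hq))) hM
        (equi_pow E M hE hM hG c hpc k hk.1 (J two p) (J_sub two p) hJ)
      have h2 : (E.filter (fun q : ℕ => QQ two k c p ((q : ℕ) : ZMod p))) =
          (E.filter fun q : ℕ => ∀ l ∈ J two p,
            ((c : ZMod p) * ((q : ℕ) : ZMod p) ^ k) ^ ((p - 1) / l) ≠ 1) := by
        apply filter_congr
        intro q hq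
        unfold QQ
        exact ⟨fun h => h.2, fun h => ⟨hE q hq, h⟩⟩
      have h3 : G R two p = ∏ l ∈ J two p, (1 - 1 / (l : ℝ)) := by
        unfold G
        refine Finset.prod_congr rfl fun l hl => ?_
        have hlp := Nat.prime_of_mem_primeFactors (J_sub two p hl)
        unfold w
        rw [if_neg (fun h => hJ l hl ((hk.2 l hlp).mpr h))]
      rw [h2, h3]
      refine h.trans ?_
      linarith
  lim := G_lim R two

end

end Pool.Agent.W47.TG
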