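import Mathlib
import Pool.Agent.W171.EP.PrimesAll
import Pool.Agent.H74R5.Uniform

/-!
# Uniformity over families of counting problems with the same local densities (primes `q ≤ y`)
-/

set_option autoImplicit false

namespace Pool.Agent.W47.TG

open Finset Filter Topology
open Pool.Agent.H771R4.SE (Dat cntE)
open Pool.Agent.W171.EP (badG primesAll)
open Pool.Agent.H74R5 (mix cnt_diff)

theorem uniformP (α θ C : ℝ) (hα : 0 < α) (hθ : 1 / 2 + 2 * α < θ) (hθ1 : θ < 1) (hC : 1 < C)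
    (hCθ : θ * (1 - θ) < C * (2 * θ - 1)) : ∃ θ' : ℝ, θ' < θ ∧
    ∀ (ι : Type) (F : ι → Dat) (i0 : ι), (∀ i, (F i).G = (F i0).G) → (∀ i, (F i).A = (F i0).A) →
      (∀ i, (F i).p0 = (F i0).p0) → ∀ ε : ℝ, 0 < ε →
      ∃ N₀ : ℕ, ∀ y : ℕ, N₀ ≤ y → ∀ i, ∀ l : ℕ, 0 < l → Real.log l ≤ √y →
        (#(badG (F i) ε (C * Real.log y) ((y : ℝ) ^ α) l y) : ℝ) ≤ 2 * (y : ℝ) ^ θ' := by
  classical
  obtain ⟨θ', hθ', hall⟩ := primesAll α θ C hα hθ hθ1 hC hCθ
  refine ⟨θ', hθ', fun ι F i0 hG hA hp ε hε => ?_⟩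
  by_contra hcon
  push Not at hcon
  choose Nf hN If lf hl hll hI using hcon
  -- thresholds
  have hT : ∀ y : ℕ, ∃ T : ℕ, y < T ∧ ∀ x : ℕ, T ≤ x →
      (Nat.primeCounting y : ℝ) ≤ ε / 2 * (Nat.primeCounting x : ℝ) := by
    intro y
    have h1 : Tendsto (fun x : ℕ => ε / 2 * (Nat.primeCounting x : ℝ)) atTop atTop :=
      (tendsto_natCast_atTop_atTop.comp Nat.tendsto_primeCounting).const_mul_atTop (by positivity)
    obtain ⟨T, hT⟩ := eventually_atTop.1 (h1.eventually_ge_atTop (Nat.primeCounting y : ℝ))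
    exact ⟨max T (y + 1), by omega, fun x hx => hT x (le_trans (le_max_left _ _) hx)⟩
  choose T hT1 hT2 using hT
  let Yf : ℕ → ℕ := fun N => max N ⌈Real.exp ((N : ℝ) ^ α)⌉₊
  let S : ℕ → ℕ := fun n => Nat.rec 0 (fun _ s => T (Yf (Nf s))) n
  have hS : ∀ n, S (n + 1) = T (Yf (Nf (S n))) := fun n => rfl
  let Y : ℕ → ℕ := fun n => Yf (Nf (S n))
  have hYS : ∀ n, Y n < S (n + 1) := fun n => by rw [hS]; exact hT1 _
  have hSN : ∀ n, S n ≤ Nf (S n) := fun n => hN _
  have hNY : ∀ n, Nf (S n) ≤ Y n := fun n => le_max_left _ _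
  have hYY : ∀ n, Y n < Y (n + 1) := fun n =>
    (hYS n).trans_le ((hSN (n + 1)).trans (hNY (n + 1)))
  have hmono : StrictMono Y := strictMono_nat_of_lt_succ hYY
  have hYid : ∀ n, n ≤ Y n := hmono.id_le
  have hex : ∀ p : ℕ, ∃ n, p ≤ Y n := fun p => ⟨p, hYid p⟩
  let ν : ℕ → ℕ := fun p => Nat.find (hex p)
  have hν : ∀ n p : ℕ, Y n < p → p ≤ Y (n + 1) → ν p = n + 1 := by
    intro n p h1 h2
    apply le_antisymm
    · exact Nat.find_min' (hex p) h2
    · by_contra h3
      have h4 : ν p ≤ n := by omega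
      have h5 : p ≤ Y (ν p) := Nat.find_spec (hex p)
      have h6 : Y (ν p) ≤ Y n := hmono.monotone h4
      omega
  let dm : Dat := mix F i0 (fun p => If (S (ν p))) hG hp
  obtain ⟨N₁, hN₁⟩ := hall dm (ε / 2) (by positivity)
  -- compare at the step `N₁ + 1`
  set n := N₁ with hn
  set N := Nf (S (n + 1)) with hNdef
  have hNN : N₁ ≤ N := by
    have h1 := hYid n
    have h2 := hYS n
    have h3 := hSN (n + 1)
    omega
  have hN1 : 1 ≤ N := by
    have h2 := hYS n
    have h3 := hSN (n + 1)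
    omega
  set l := lf (S (n + 1)) with hldef
  have h1 := hN₁ N hNN l (hl _) (hll _)
  have h2 := hI (S (n + 1))
  rw [← hNdef] at h2
  have hsub : badG (F (If (S (n + 1)))) ε (C * Real.log N) ((N : ℝ) ^ α) l N ⊆
      badG dm (ε / 2) (C * Real.log N) ((N : ℝ) ^ α) l N := by
    intro q hq
    unfold badG at hq ⊢
    rw [mem_filter] at hq ⊢
    obtain ⟨hq1, x, hx1, hx2, hx3⟩ := hq
    refine ⟨hq1, x, hx1, hx2, ?_⟩
    have hN1' : (1 : ℝ) ≤ N := by exact_mod_cast hN1
    have hlN : 0 ≤ Real.log N := Real.log_nonneg hN1'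
    have hx00 : 0 < x := by
      rcases Nat.eq_zero_or_pos x with h | h
      · -- then the count is zero
        exfalso
        subst h
        have e0 : cntE (F (If (S (n + 1)))) (l * q) 0 = 0 := by
          unfold cntE
          rw [card_eq_zero, filter_eq_empty_iff]
          intro p hp
          rw [mem_range] at hp
          have : p = 0 := by omega
          rw [this]
          rintro ⟨h, -⟩
          exact Nat.not_prime_zero h
        rw [e0] at hx3
        simp at hx3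
      · exact h
    have hx0 : (0 : ℝ) < x := by exact_mod_cast hx00
    have hxY : x ≤ Y (n + 1) := by
      have h3 : (x : ℝ) ≤ Real.exp ((N : ℝ) ^ α) := by
        rwa [← Real.log_le_iff_le_exp hx0]
      have h4 : x ≤ ⌈Real.exp ((N : ℝ) ^ α)⌉₊ := by
        exact_mod_cast h3.trans (Nat.le_ceil _)
      exact h4.trans (le_max_right _ _)
    have hNx : N ≤ x := by
      have h3 : Real.log N ≤ Real.log x := by nlinarith
      have h4 : (N : ℝ) ≤ x := (Real.log_le_log_iff (by linarith) hx0).mp h3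
      exact_mod_cast h4
    have hTx : T (Y n) ≤ x := by
      have h3 := hSN (n + 1)
      rw [hS] at h3
      exact h3.trans hNx
    have hpi := hT2 (Y n) x hTx
    have hag : ∀ p : ℕ, Y n < p → p ≤ x →
        (dm.Q p ((l * q : ℕ) : ZMod p) ↔ (F (If (S (n + 1)))).Q p ((l * q : ℕ) : ZMod p)) := by
      intro p h3 h4
      have h5 : ν p = n + 1 := hν n p h3 (h4.trans hxY)
      change (F (If (S (ν p)))).Q p ((l * q : ℕ) : ZMod p) ↔ _
      rw [h5]
    have e1 := cnt_diff dm (F (If (S (n + 1)))) (l * q) x (Y n) hag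
    have e2 := cnt_diff (F (If (S (n + 1)))) dm (l * q) x (Y n)
      (fun p h3 h4 => (hag p h3 h4).symm)
    have hA' : (F (If (S (n + 1)))).A = dm.A := hA _
    rw [hA'] at hx3
    have e3 : |(cntE (F (If (S (n + 1)))) (l * q) x : ℝ) - dm.A * (Nat.primeCounting x : ℝ)| ≤
        |(cntE dm (l * q) x : ℝ) - dm.A * (Nat.primeCounting x : ℝ)| +
          Nat.primeCounting (Y n) := by
      have e4 : |(cntE (F (If (S (n + 1)))) (l * q) x : ℝ) - cntE dm (l * q) x| ≤
          Nat.primeCounting (Y n) := by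
        rw [abs_le]
        constructor <;> linarith
      have e5 := abs_sub_le (cntE (F (If (S (n + 1)))) (l * q) x : ℝ) (cntE dm (l * q) x : ℝ)
        (dm.A * (Nat.primeCounting x : ℝ))
      linarith
    linarith
  have h3 : (#(badG (F (If (S (n + 1)))) ε (C * Real.log N) ((N : ℝ) ^ α) l N) : ℝ) ≤
      #(badG dm (ε / 2) (C * Real.log N) ((N : ℝ) ^ α) l N) := by
    exact_mod_cast card_le_card hsub
  linarith

end Pool.Agent.W47.TG
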