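import Mathlib
import Pool.Agent.W47.TG.Dat2
import Pool.Agent.W47.TG.Unif

/-!
# Almost all primes `q ≤ y`, all `x` with `y ^ C ≤ x ≤ exp (y ^ α)`, all smooth exponents `k`
-/

set_option autoImplicit false

namespace Pool.Agent.W47.TG

open Finset Filter Topology Classical
open Pool.Agent.H386R2.Artin (PP)
open Pool.Agent.H771R4.SE (Dat cntE)
open Pool.Agent.W171.EP (badG)

section
variable (R : Finset ℕ) (two : ℕ → Prop)

/-- the number of odd primes `p ≤ x`, `p ∤ n`, such that `c n ^ k` is no `l`-th power modulo `p` for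
all `l ∈ J p` -/
noncomputable def CN (k : ℕ) (c n : ℤ) (x : ℕ) : ℕ :=
  #{p ∈ range (x + 1) | p.Prime ∧ p ≠ 2 ∧ (n : ZMod p) ≠ 0 ∧
    ∀ l ∈ J two p, ((c : ZMod p) * (n : ZMod p) ^ k) ^ ((p - 1) / l) ≠ 1}

/-- the hypothesis on `c` -/
def HC (c : ℤ) : Prop :=
  c ≠ 0 ∧ ∀ p : ℕ, p.Prime → ∀ l ∈ J two p, l ∈ R → (c : ZMod p) ^ ((p - 1) / l) = 1

lemma HC_sign {c : ℤ} (h : HC R two c) {e : ℤ} (he : e = 1 ∨ e = -1) {k : ℕ} (hk : Rad R k)
    (p : ℕ) (hp : p.Prime) (l : ℕ) (hl : l ∈ J two p) (hlk : l ∣ k) :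
    ((c * e ^ k : ℤ) : ZMod p) ^ ((p - 1) / l) = 1 := by
  have hlp := J_sub two p hl
  have hlpr := Nat.prime_of_mem_primeFactors hlp
  have hld := Nat.dvd_of_mem_primeFactors hlp
  have hp1 : 0 < p - 1 := by have := hp.two_le; omega
  have hp2 : p ≠ 2 := by
    rintro rfl
    have := Nat.le_of_dvd (by norm_num) hld
    have := hlpr.two_le
    omega
  have hpe : Even (p - 1) := by
    have := hp.eq_two_or_odd
    rw [Nat.even_iff]
    omega
  have h1 := h.2 p hp l hl ((hk.2 l hlpr).mp hlk)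
  obtain ⟨t, rfl⟩ := hlk
  push_cast
  rw [mul_pow, h1, one_mul, ← pow_mul,
    show l * t * ((p - 1) / l) = (l * ((p - 1) / l)) * t by ring, Nat.mul_div_cancel' hld, pow_mul]
  have h2 : (e : ZMod p) ^ (p - 1) = 1 := by
    rcases he with rfl | rfl
    · simp
    · push_cast
      exact hpe.neg_one_pow
  rw [h2, one_pow]

/-- the data -/
noncomputable def dd (c : ℤ) (h : HC R two c) {e : ℤ} (he : e = 1 ∨ e = -1) {k : ℕ}
    (hk : Rad R k) : Dat :=
  dat R two k hk c.natAbs (c * e ^ k)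
    (mul_ne_zero h.1 (pow_ne_zero _ (by rcases he with rfl | rfl <;> norm_num)))
    (by
      have h1 : (e ^ k).natAbs = 1 := by
        rcases he with rfl | rfl
        · simp
        · rw [Int.natAbs_pow]; simp
      rw [Int.natAbs_mul, h1, mul_one])
    (HC_sign R two h he hk)

lemma CN_cntE (c : ℤ) (h : HC R two c) {k : ℕ} (hk : Rad R k) (s : ℤ) (q x : ℕ) :
    ∃ e : ℤ, ∃ he : (e = 1 ∨ e = -1),
      |(CN two k c (s * q) x : ℝ) - cntE (dd R two c h he hk) (s.natAbs * q) x| ≤ 1 := by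
  obtain ⟨e, he, hse⟩ : ∃ e : ℤ, (e = 1 ∨ e = -1) ∧ s = e * (s.natAbs : ℤ) := by
    rcases le_total 0 s with h | h
    · exact ⟨1, Or.inl rfl, by rw [one_mul]; omega⟩
    · exact ⟨-1, Or.inr rfl, by omega⟩
  refine ⟨e, he, ?_⟩
  have he0 : ∀ p : ℕ, p.Prime → (e : ZMod p) ≠ 0 := by
    intro p hp
    have : Fact p.Prime := ⟨hp⟩
    rcases he with rfl | rfl <;> simp
  set n : ℕ := s.natAbs * q with hn
  have hiff : ∀ p : ℕ, p.Prime → ((((s * q : ℤ) : ZMod p) ≠ 0 ∧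
      ∀ l ∈ J two p, ((c : ZMod p) * ((s * q : ℤ) : ZMod p) ^ k) ^ ((p - 1) / l) ≠ 1) ↔
      QQ two k (c * e ^ k) p (n : ZMod p)) := by
    intro p hp
    have : Fact p.Prime := ⟨hp⟩
    have e1 : ((s * q : ℤ) : ZMod p) = (e : ZMod p) * ((n : ℕ) : ZMod p) := by
      have e0 : (s * q : ℤ) = e * (n : ℕ) := by
        rw [hn]
        conv_lhs => rw [hse]
        push_cast
        ring
      rw [e0]
      push_cast
      rfl
    have e2 : (c : ZMod p) * ((s * q : ℤ) : ZMod p) ^ k =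
        ((c * e ^ k : ℤ) : ZMod p) * ((n : ℕ) : ZMod p) ^ k := by
      rw [e1]
      push_cast
      ring
    unfold QQ
    rw [e2]
    apply and_congr _ Iff.rfl
    rw [e1, ne_eq, ne_eq, mul_eq_zero, not_or]
    exact ⟨fun h => h.2, fun h => ⟨he0 p hp, h⟩⟩
  set A := (range (x + 1)).filter (fun p : ℕ => p.Prime ∧ p ≠ 2 ∧ ((s * q : ℤ) : ZMod p) ≠ 0 ∧
    ∀ l ∈ J two p, ((c : ZMod p) * ((s * q : ℤ) : ZMod p) ^ k) ^ ((p - 1) / l) ≠ 1) with hA
  set B := (range (x + 1)).filter (fun p : ℕ => p.Prime ∧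
    QQ two k (c * e ^ k) p (n : ZMod p)) with hB
  have hAc : CN two k c (s * q) x = #A := rfl
  have hBc : cntE (dd R two c h he hk) n x = #B := rfl
  have hAB : A ⊆ B := by
    intro p hp
    rw [hA, mem_filter] at hp
    rw [hB, mem_filter]
    exact ⟨hp.1, hp.2.1, (hiff p hp.2.1).mp hp.2.2.2⟩
  have hBA : B ⊆ insert 2 A := by
    intro p hp
    rw [hB, mem_filter] at hp
    rw [mem_insert]
    by_cases h2 : p = 2
    · exact Or.inl h2
    · right
      rw [hA, mem_filter]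
      exact ⟨hp.1, hp.2.1, h2, (hiff p hp.2.1).mpr hp.2.2⟩
  have c1 : (#A : ℝ) ≤ #B := by exact_mod_cast card_le_card hAB
  have c2 : (#B : ℝ) ≤ #A + 1 := by
    exact_mod_cast (card_le_card hBA).trans (card_insert_le _ _)
  rw [hAc, hBc, abs_le]
  constructor <;> linarith

/-- all exponents `k` with a given set `R` of prime divisors -/
theorem mainR (c : ℤ) (h : HC R two c) (α θ C : ℝ) (hα : 0 < α)
    (hθ : 1 / 2 + 2 * α < θ) (hθ1 : θ < 1) (hC : 1 < C)
    (hCθ : θ * (1 - θ) < C * (2 * θ - 1)) (ε : ℝ) (hε : 0 < ε) :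
    ∃ y₀ : ℕ, ∀ y : ℕ, y₀ ≤ y → ∀ k : ℕ, Rad R k →
      ∀ s : ℤ, s ≠ 0 → Real.log |(s : ℝ)| ≤ √(y : ℝ) →
      (((range (y + 1)).filter (fun q : ℕ => q.Prime ∧
        ∃ x : ℕ, (y : ℝ) ^ C ≤ x ∧ (x : ℝ) ≤ Real.exp ((y : ℝ) ^ α) ∧
          ε * (Nat.primeCounting x : ℝ) <
            |(CN two k c (s * q) x : ℝ) - cc R two * (Nat.primeCounting x : ℝ)|)).card : ℝ) ≤
        (y : ℝ) ^ θ := by
  by_cases hex : ∃ k, Rad R k
  swap
  · exact ⟨0, fun y _ k hk => absurd ⟨k, hk⟩ hex⟩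
  obtain ⟨k0, hk0⟩ := hex
  obtain ⟨θ', hθ', hall⟩ := uniformP α θ C hα hθ hθ1 hC hCθ
  obtain ⟨N₁, h1⟩ := hall ({k : ℕ // Rad R k} × {e : ℤ // e = 1 ∨ e = -1})
    (fun i => dd R two c h i.2.2 i.1.2) (⟨k0, hk0⟩, ⟨1, Or.inl rfl⟩) (fun _ => rfl) (fun _ => rfl)
    (fun _ => rfl) (ε / 2) (by positivity)
  -- eventually the power wins
  have hpow : ∀ᶠ y : ℕ in atTop, 4 * (y : ℝ) ^ θ' ≤ (y : ℝ) ^ θ := by
    have hh : ∀ᶠ l : ℝ in atTop, 4 * l ^ θ' ≤ l ^ θ := by
      have k2 := (tendsto_rpow_atTop (show 0 < θ - θ' by linarith)).eventually_ge_atTop 4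
      filter_upwards [k2, eventually_gt_atTop 0] with l k2 k3
      have h5 : l ^ θ = l ^ θ' * l ^ (θ - θ') := by
        rw [← Real.rpow_add k3]; congr 1; ring
      have h6 : 0 < l ^ θ' := by positivity
      rw [h5]; nlinarith
    exact (tendsto_natCast_atTop_atTop (R := ℝ)).eventually hh
  obtain ⟨N₃, hN₃⟩ := eventually_atTop.1 hpow
  -- the number of primes up to `x` is large
  have hpi : ∀ᶠ x : ℕ in atTop, 2 / ε ≤ (Nat.primeCounting x : ℝ) :=
    (Filter.tendsto_atTop.mp (tendsto_natCast_atTop_atTop.comp Nat.tendsto_primeCounting) _)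
  obtain ⟨X, hX⟩ := eventually_atTop.1 hpi
  refine ⟨max N₁ (max N₃ (max X 2)), fun y hy k hk s hs hsy => ?_⟩
  have hy1 : N₁ ≤ y := (le_max_left _ _).trans hy
  have hy3 := hN₃ y ((le_max_left _ _).trans ((le_max_right _ _).trans hy))
  have hyX : X ≤ y := (le_max_left _ _).trans ((le_max_right _ _).trans
    ((le_max_right _ _).trans hy))
  have hy4 : 2 ≤ y := (le_max_right _ _).trans ((le_max_right _ _).trans
    ((le_max_right _ _).trans hy))
  have hy0 : (0 : ℝ) < y := by exact_mod_cast (by omega : 0 < y)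
  have hyone : (1 : ℝ) ≤ y := by exact_mod_cast (by omega : 1 ≤ y)
  have hl : 0 < s.natAbs := Int.natAbs_pos.2 hs
  have hll : Real.log ((s.natAbs : ℕ) : ℝ) ≤ √(y : ℝ) := by
    have habs : |(s : ℝ)| = ((s.natAbs : ℕ) : ℝ) := by
      rw [← Int.cast_abs, Int.abs_eq_natAbs]
      simp
    rw [← habs]
    exact hsy
  have b1 := h1 y hy1 (⟨k, hk⟩, ⟨1, Or.inl rfl⟩) s.natAbs hl hll
  have b2 := h1 y hy1 (⟨k, hk⟩, ⟨-1, Or.inr rfl⟩) s.natAbs hl hll
  simp only at b1 b2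
  set B1 := badG (dd R two c h (Or.inl rfl : (1 : ℤ) = 1 ∨ (1 : ℤ) = -1) hk) (ε / 2)
    (C * Real.log y) ((y : ℝ) ^ α) s.natAbs y with hB1
  set B2 := badG (dd R two c h (Or.inr rfl : (-1 : ℤ) = 1 ∨ (-1 : ℤ) = -1) hk) (ε / 2)
    (C * Real.log y) ((y : ℝ) ^ α) s.natAbs y with hB2
  set B := (range (y + 1)).filter (fun q : ℕ => q.Prime ∧
        ∃ x : ℕ, (y : ℝ) ^ C ≤ x ∧ (x : ℝ) ≤ Real.exp ((y : ℝ) ^ α) ∧
          ε * (Nat.primeCounting x : ℝ) <
            |(CN two k c (s * q) x : ℝ) - cc R two * (Nat.primeCounting x : ℝ)|) with hB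
  have hsub : B ⊆ B1 ∪ B2 := by
    intro q hq
    rw [hB, mem_filter] at hq
    obtain ⟨hqr, hqp, x, hx1, hx2, hx3⟩ := hq
    have hx0 : (0 : ℝ) < x := lt_of_lt_of_le (by positivity) hx1
    have hxy : X ≤ x := by
      have hyx : (y : ℝ) ≤ x := by
        calc (y : ℝ) = (y : ℝ) ^ (1 : ℝ) := (Real.rpow_one _).symm
          _ ≤ (y : ℝ) ^ C := Real.rpow_le_rpow_of_exponent_le hyone hC.le
          _ ≤ x := hx1
      exact hyX.trans (by exact_mod_cast hyx)
    have hpix : 2 / ε ≤ (Nat.primeCounting x : ℝ) := hX x hxy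
    rw [div_le_iff₀ hε] at hpix
    have hlow : C * Real.log y ≤ Real.log x := by
      have := Real.log_le_log (by positivity) hx1
      rwa [Real.log_rpow hy0] at this
    have hup : Real.log x ≤ (y : ℝ) ^ α := by
      rw [Real.log_le_iff_le_exp hx0]
      exact hx2
    have hPP : q ∈ PP y := by
      rw [PP, mem_filter]
      exact ⟨hqr, hqp⟩
    obtain ⟨e, he, hPs⟩ := CN_cntE R two c h hk s q x
    have hx4 : ε / 2 * (Nat.primeCounting x : ℝ) <
        |(cntE (dd R two c h he hk) (s.natAbs * q) x : ℝ) -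
          cc R two * (Nat.primeCounting x : ℝ)| := by
      have h7 : |(CN two k c (s * q) x : ℝ) - cc R two * (Nat.primeCounting x : ℝ)| ≤
          |(cntE (dd R two c h he hk) (s.natAbs * q) x : ℝ) -
            cc R two * (Nat.primeCounting x : ℝ)| +
          |(CN two k c (s * q) x : ℝ) - cntE (dd R two c h he hk) (s.natAbs * q) x| := by
        have : (CN two k c (s * q) x : ℝ) - cc R two * (Nat.primeCounting x : ℝ) =
          ((cntE (dd R two c h he hk) (s.natAbs * q) x : ℝ) -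
            cc R two * (Nat.primeCounting x : ℝ)) +
          ((CN two k c (s * q) x : ℝ) - cntE (dd R two c h he hk) (s.natAbs * q) x) := by ring
        rw [this]
        exact abs_add_le _ _
      have h8 : 1 ≤ ε / 2 * (Nat.primeCounting x : ℝ) := by linarith
      linarith
    rw [mem_union]
    rcases he with rfl | rfl
    · left
      rw [hB1]
      unfold badG
      rw [mem_filter]
      exact ⟨hPP, x, hlow, hup, hx4⟩
    · right
      rw [hB2]
      unfold badG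
      rw [mem_filter]
      exact ⟨hPP, x, hlow, hup, hx4⟩
  have h9 := (card_le_card hsub).trans (card_union_le _ _)
  have h10 : (#B : ℝ) ≤ (#B1 : ℝ) + (#B2 : ℝ) := by exact_mod_cast h9
  linarith

end

lemma rad_self {k : ℕ} (hk : 0 < k) : Rad k.primeFactors k :=
  ⟨hk, fun l hl => by
    rw [Nat.mem_primeFactors]
    exact ⟨fun h => ⟨hl, h, hk.ne'⟩, fun h => h.2.1⟩⟩

/-- all exponents `k` with prime divisors at most `z` -/
theorem main (two : Finset ℕ → ℕ → Prop) (c : ℤ) (h : ∀ R, HC R (two R) c) (α θ C : ℝ)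
    (hα : 0 < α) (hθ : 1 / 2 + 2 * α < θ) (hθ1 : θ < 1) (hC : 1 < C)
    (hCθ : θ * (1 - θ) < C * (2 * θ - 1)) (ε : ℝ) (hε : 0 < ε) (z : ℕ) :
    ∃ y₀ : ℕ, ∀ y : ℕ, y₀ ≤ y → ∀ k : ℕ, 0 < k → (∀ l : ℕ, l.Prime → l ∣ k → l ≤ z) →
      ∀ s : ℤ, s ≠ 0 → Real.log |(s : ℝ)| ≤ √(y : ℝ) →
      (((range (y + 1)).filter (fun q : ℕ => q.Prime ∧
        ∃ x : ℕ, (y : ℝ) ^ C ≤ x ∧ (x : ℝ) ≤ Real.exp ((y : ℝ) ^ α) ∧
          ε * (Nat.primeCounting x : ℝ) <
            |(CN (two k.primeFactors) k c (s * q) x : ℝ) -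
              cc k.primeFactors (two k.primeFactors) * (Nat.primeCounting x : ℝ)|)).card : ℝ) ≤
        (y : ℝ) ^ θ := by
  choose N hN using fun R : Finset ℕ => mainR R (two R) c (h R) α θ C hα hθ hθ1 hC hCθ ε hε
  refine ⟨((range (z + 1)).powerset).sup N, fun y hy k hk hkz => ?_⟩
  have hR : k.primeFactors ∈ (range (z + 1)).powerset := by
    rw [mem_powerset]
    intro l hl
    rw [mem_range]
    have := hkz l (Nat.prime_of_mem_primeFactors hl) (Nat.dvd_of_mem_primeFactors hl)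
    omega
  exact hN k.primeFactors y ((Finset.le_sup hR).trans hy) k (rad_self hk)

end Pool.Agent.W47.TG
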